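import Pool.Agent.KS6_88.SN.V6

set_option autoImplicit false

/-! From vertices to all node polynomials with zeros in `[-1,1]`. -/

namespace Pool.Agent.KS6_88.SN

open Finset Polynomial

/-- `|P^{(k)}(x)| ≤ w P^{(k)}(1) + (1-w) (-1)^{n-k} P^{(k)}(-1)` -/
def Good (n k : ℕ) (x w : ℝ) (P : ℝ[X]) : Prop :=
  |eval x (derivative^[k] P)| ≤ w * eval 1 (derivative^[k] P)
    + (1 - w) * ((-1) ^ (n - k) * eval (-1) (derivative^[k] P))

/-- the monic polynomial with the zeros `Z` -/
noncomputable def NP (Z : Multiset ℝ) : ℝ[X] := (Z.map fun z => X - C z).prod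

theorem iter_add (k : ℕ) (P Q : ℝ[X]) :
    derivative^[k] (P + Q) = derivative^[k] P + derivative^[k] Q :=
  iterate_map_add derivative k P Q

theorem Good.comb {n k : ℕ} {x w : ℝ} {P Q : ℝ[X]} {c e : ℝ} (hc : 0 ≤ c) (he : 0 ≤ e)
    (hP : Good n k x w P) (hQ : Good n k x w Q) : Good n k x w (C c * P + C e * Q) := by
  unfold Good at *
  simp only [iter_add, iterate_derivative_C_mul, eval_add, eval_mul, eval_C]
  calc |c * eval x (derivative^[k] P) + e * eval x (derivative^[k] Q)|
      ≤ |c * eval x (derivative^[k] P)| + |e * eval x (derivative^[k] Q)| := abs_add_le _ _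
    _ = c * |eval x (derivative^[k] P)| + e * |eval x (derivative^[k] Q)| := by
        rw [abs_mul, abs_mul, abs_of_nonneg hc, abs_of_nonneg he]
    _ ≤ _ := by
        have h1 := mul_le_mul_of_nonneg_left hP hc
        have h2 := mul_le_mul_of_nonneg_left hQ he
        linarith

theorem Good.add {n k : ℕ} {x w : ℝ} {P Q : ℝ[X]}
    (hP : Good n k x w P) (hQ : Good n k x w Q) : Good n k x w (P + Q) := by
  have := Good.comb zero_le_one zero_le_one hP hQ
  simpa using this

theorem Good.zero {n k : ℕ} {x w : ℝ} : Good n k x w 0 := by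
  unfold Good
  simp

theorem Good.multiset_sum {n k : ℕ} {x w : ℝ} (S : Multiset ℝ[X]) (h : ∀ P ∈ S, Good n k x w P) :
    Good n k x w S.sum := by
  induction S using Multiset.induction_on with
  | empty => simpa using Good.zero
  | cons a s ih =>
    rw [Multiset.sum_cons]
    exact Good.add (h a (Multiset.mem_cons_self _ _)) (ih fun P hP => h P (Multiset.mem_cons_of_mem hP))

/-- the reduction to the vertices -/
theorem good_of_vertices {n k : ℕ} {x w : ℝ}
    (hv : ∀ a ≤ n, Good n k x w ((X - C 1) ^ a * (X + C 1) ^ (n - a)))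
    (Z : Multiset ℝ) : (∀ z ∈ Z, z ∈ Set.Icc (-1 : ℝ) 1) → ∀ a b : ℕ, a + b + Multiset.card Z = n →
      Good n k x w ((X - C 1) ^ a * (X + C 1) ^ b * NP Z) := by
  induction Z using Multiset.induction_on with
  | empty =>
    intro _ a b hab
    simp only [Multiset.card_zero, add_zero] at hab
    unfold NP
    simp only [Multiset.map_zero, Multiset.prod_zero, mul_one]
    have := hv a (by omega)
    rw [show n - a = b by omega] at this
    exact this
  | cons z s ih =>
    intro hz a b hab
    rw [Multiset.card_cons] at hab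
    have hz1 := hz z (Multiset.mem_cons_self _ _)
    have hs : ∀ z ∈ s, z ∈ Set.Icc (-1 : ℝ) 1 := fun y hy => hz y (Multiset.mem_cons_of_mem hy)
    have h1 := ih hs (a + 1) b (by omega)
    have h2 := ih hs a (b + 1) (by omega)
    have h3 := Good.comb (c := (1 + z) / 2) (e := (1 - z) / 2) (by linarith [hz1.1]) (by linarith [hz1.2]) h1 h2
    have e : (X - C z : ℝ[X]) = C ((1 + z) / 2) * (X - C 1) + C ((1 - z) / 2) * (X + C 1) := by
      have : C ((1 + z) / 2) + C ((1 - z) / 2) = (1 : ℝ[X]) := by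
        rw [← map_add, show (1 + z) / 2 + (1 - z) / 2 = 1 by ring, map_one]
      have e2 : C ((1 - z) / 2) - C ((1 + z) / 2) = - (C z : ℝ[X]) := by
        rw [← map_sub, show (1 - z) / 2 - (1 + z) / 2 = -z by ring, map_neg]
      rw [map_one]
      linear_combination -X * this - e2
    have e3 : (X - C 1) ^ a * (X + C 1) ^ b * NP (z ::ₘ s)
        = C ((1 + z) / 2) * ((X - C 1) ^ (a + 1) * (X + C 1) ^ b * NP s)
          + C ((1 - z) / 2) * ((X - C 1) ^ a * (X + C 1) ^ (b + 1) * NP s) := by
      have : NP (z ::ₘ s) = (X - C z) * NP s := by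
        unfold NP
        rw [Multiset.map_cons, Multiset.prod_cons]
      rw [this]
      rw [e]
      ring
    rw [e3]
    exact h3

/-- the condition for all node polynomials -/
def SP (n k : ℕ) (x w : ℝ) : Prop :=
  ∀ Z : Multiset ℝ, (∀ z ∈ Z, z ∈ Set.Icc (-1 : ℝ) 1) → Multiset.card Z = n → Good n k x w (NP Z)

theorem SP.succ {n k : ℕ} {x w : ℝ} (h : SP n k x w) : SP (n + 1) (k + 1) x w := by
  intro Z hZ hc
  have hd : derivative (NP Z) = (Z.map fun z => NP (Z.erase z)).sum := by
    unfold NP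
    rw [derivative_prod]
    simp
  have h1 : Good n k x w (derivative (NP Z)) := by
    rw [hd]
    apply Good.multiset_sum
    intro P hP
    rw [Multiset.mem_map] at hP
    obtain ⟨z, hz, rfl⟩ := hP
    apply h
    · intro y hy
      exact hZ y (Multiset.mem_of_mem_erase hy)
    · rw [Multiset.card_erase_of_mem hz, hc]
      simp
  unfold Good at h1 ⊢
  rw [Function.iterate_succ_apply, show n + 1 - (k + 1) = n - k by omega]
  exact h1

theorem SP.base (d : ℕ) (hd : 1 ≤ d) (x : ℝ) (hx : x ∈ Set.Icc (-1 : ℝ) 1) :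
    ∃ w : ℝ, 0 ≤ w ∧ w ≤ 1 ∧ SP (2 * d - 1) (d - 1) x w := by
  obtain ⟨w, hw0, hw1, hw⟩ := exists_w d hd ((1 + x) / 2) ((1 - x) / 2) (by ring)
    (by linarith [hx.1]) (by linarith [hx.2])
  refine ⟨w, hw0, hw1, fun Z hZ hc => ?_⟩
  have := good_of_vertices (n := 2 * d - 1) (k := d - 1) (x := x) (w := w) ?_ Z hZ 0 0 (by simpa using hc)
  · simpa using this
  · intro a ha
    unfold Good
    have e1 := eval_vertex (2 * d - 1) (d - 1) a (by omega) ha ((1 + x) / 2) ((1 - x) / 2) (by ring)
    have e2 := eval_vertex (2 * d - 1) (d - 1) a (by omega) ha 1 0 (by ring)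
    have e3 := eval_vertex (2 * d - 1) (d - 1) a (by omega) ha 0 1 (by ring)
    rw [show (1 + x) / 2 - (1 - x) / 2 = x by ring] at e1
    rw [show (1 : ℝ) - 0 = 1 by ring, g_one_zero _ _ _ (by omega) ha] at e2
    rw [show (0 : ℝ) - 1 = -1 by ring, g_zero_one _ _ _ (by omega) ha] at e3
    rw [e1, e2, e3, show 2 * d - 1 - (d - 1) = d by omega]
    have hs : ((-1 : ℝ) ^ d) * ((-1 : ℝ) ^ d) = 1 := by
      rw [← mul_pow]; norm_num
    have hp : (0 : ℝ) < ((d - 1).factorial : ℝ) * 2 ^ d := by positivity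
    rw [abs_mul, abs_of_pos hp]
    have h1 := mul_le_mul_of_nonneg_left (hw a ha) hp.le
    refine le_trans h1 (le_of_eq ?_)
    linear_combination (-((1 - w) * ((d - 1).factorial : ℝ) * 2 ^ d * (a.choose d : ℝ))) * hs

theorem SP.all (n k : ℕ) (hk : k ≤ n) (hn : n ≤ 2 * k + 1) (x : ℝ) (hx : x ∈ Set.Icc (-1 : ℝ) 1) :
    ∃ w : ℝ, 0 ≤ w ∧ w ≤ 1 ∧ SP n k x w := by
  rcases hk.eq_or_lt with rfl | hlt
  · refine ⟨0, le_rfl, zero_le_one, fun Z hZ hc => ?_⟩
    have hnd : (NP Z).natDegree = k := by
      unfold NP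
      rw [natDegree_multiset_prod_X_sub_C_eq_card, hc]
    have hmon : (NP Z).Monic := monic_multiset_prod_of_monic _ _ fun z _ => monic_X_sub_C z
    have hder : derivative^[k] (NP Z) = C (k.factorial : ℝ) := by
      have h1 : (derivative^[k] (NP Z)).natDegree ≤ 0 := by
        have := natDegree_iterate_derivative (NP Z) k
        rw [hnd] at this
        omega
      rw [eq_C_of_natDegree_le_zero h1, coeff_iterate_derivative]
      congr 1
      have : (NP Z).coeff (0 + k) = 1 := by
        rw [zero_add]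
        have := hmon.coeff_natDegree
        rwa [hnd] at this
      rw [this, zero_add, Nat.descFactorial_self]
      simp
    unfold Good
    rw [hder]
    simp
  · obtain ⟨s, hs⟩ : ∃ s, k = (n - k) - 1 + s := ⟨k - (n - k - 1), by omega⟩
    set d := n - k with hd
    have hd1 : 1 ≤ d := by omega
    obtain ⟨w, hw0, hw1, hw⟩ := SP.base d hd1 x hx
    refine ⟨w, hw0, hw1, ?_⟩
    have h : ∀ s : ℕ, SP (2 * d - 1 + s) (d - 1 + s) x w := by
      intro s
      induction s with
      | zero => exact hw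
      | succ s ih => exact SP.succ ih
    have h2 := h s
    rwa [← hs, show 2 * d - 1 + s = n by omega] at h2

end Pool.Agent.KS6_88.SN
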