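import Pool.Agent.KS6_88.SN.M1

set_option autoImplicit false

/-! The Lagrange argument: the snake polynomial is extremal at the end points when `n ≤ 2k+1`. -/

namespace Pool.Agent.KS6_88.SN

open Finset Polynomial

/-- the node multiset without the node `i` -/
noncomputable def Zi {n : ℕ} (τ : Fin (n + 1) → ℝ) (i : Fin (n + 1)) : Multiset ℝ :=
  (univ.erase i).val.map τ

/-- the Lagrange denominators -/
noncomputable def D {n : ℕ} (τ : Fin (n + 1) → ℝ) (i : Fin (n + 1)) : ℝ :=
  ∏ j ∈ univ.erase i, (τ i - τ j)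

theorem NP_Zi {n : ℕ} (τ : Fin (n + 1) → ℝ) (i : Fin (n + 1)) :
    NP (Zi τ i) = ∏ j ∈ univ.erase i, (X - C (τ j)) := by
  unfold NP Zi
  rw [Multiset.map_map]
  rfl

theorem sign_D {n : ℕ} (τ : Fin (n + 1) → ℝ) (hτ : ∀ i j, i < j → τ j < τ i) (i : Fin (n + 1)) :
    0 < (-1) ^ (i : ℕ) * D τ i := by
  have h1 : ((-1 : ℝ)) ^ (i : ℕ) = ∏ j ∈ univ.erase i, (if j < i then (-1 : ℝ) else 1) := by
    rw [Finset.prod_ite]
    simp only [prod_const, one_pow, mul_one]
    congr 1
    have : (univ.erase i).filter (fun j => j < i) = Finset.Iio i := by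
      ext j
      simp only [mem_filter, mem_erase, mem_univ, mem_Iio, and_true]
      constructor
      · exact fun h => h.2
      · exact fun h => ⟨ne_of_lt h, h⟩
    rw [this, Fin.card_Iio]
  rw [h1, D, ← Finset.prod_mul_distrib]
  refine Finset.prod_pos fun j hj => ?_
  rw [mem_erase] at hj
  split_ifs with hji
  · have := hτ j i hji
    linarith
  · have : i < j := lt_of_le_of_ne (not_lt.mp hji) (Ne.symm hj.1)
    have := hτ i j this
    linarith

theorem lagrange_expand {n : ℕ} (τ : Fin (n + 1) → ℝ) (hτ : ∀ i j, i < j → τ j < τ i)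
    (P : ℝ[X]) (hP : P.natDegree ≤ n) :
    P = ∑ i : Fin (n + 1), C (P.eval (τ i) / D τ i) * NP (Zi τ i) := by
  have hinj : Set.InjOn τ ((univ : Finset (Fin (n + 1))) : Set (Fin (n + 1))) := by
    intro i _ j _ hij
    by_contra hne
    rcases lt_or_gt_of_ne hne with h | h
    · have := hτ i j h; linarith
    · have := hτ j i h; linarith
  have hdeg : P.degree < ((univ : Finset (Fin (n + 1))).card : WithBot ℕ) := by
    rw [card_univ, Fintype.card_fin]
    refine lt_of_le_of_lt degree_le_natDegree ?_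
    exact_mod_cast Nat.lt_succ_of_le hP
  have h := Lagrange.eq_interpolate hinj hdeg
  rw [Lagrange.interpolate_apply] at h
  conv_lhs => rw [h]
  refine Finset.sum_congr rfl fun i _ => ?_
  rw [NP_Zi]
  unfold Lagrange.basis Lagrange.basisDivisor D
  rw [Finset.prod_mul_distrib, ← map_prod, Finset.prod_inv_distrib, div_eq_mul_inv, map_mul]
  ring

theorem eval_expand {n : ℕ} (τ : Fin (n + 1) → ℝ) (hτ : ∀ i j, i < j → τ j < τ i)
    (P : ℝ[X]) (hP : P.natDegree ≤ n) (k : ℕ) (x : ℝ) :
    eval x (derivative^[k] P)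
      = ∑ i : Fin (n + 1), P.eval (τ i) / D τ i * eval x (derivative^[k] (NP (Zi τ i))) := by
  conv_lhs => rw [lagrange_expand τ hτ P hP]
  rw [iterate_derivative_sum, eval_finsetSum]
  refine Finset.sum_congr rfl fun i _ => ?_
  rw [iterate_derivative_C_mul, eval_mul, eval_C]

/-- For `n ≤ 2k+1` the snake polynomial is extremal at one of the end points, even among all
polynomials which are bounded by the majorant only at the alternation points. -/
theorem extremal (n k : ℕ) (hk : k ≤ n) (hn : n ≤ 2 * k + 1) (τ : Fin (n + 1) → ℝ)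
    (hτ : ∀ i j, i < j → τ j < τ i) (hI : ∀ i, τ i ∈ Set.Icc (-1 : ℝ) 1) (m : Fin (n + 1) → ℝ)
    (ω q : ℝ[X]) (hω : ω.natDegree ≤ n) (hq : q.natDegree ≤ n)
    (hωτ : ∀ i, ω.eval (τ i) = (-1) ^ (i : ℕ) * m i) (hqτ : ∀ i, |q.eval (τ i)| ≤ m i)
    (x : ℝ) (hx : x ∈ Set.Icc (-1 : ℝ) 1) :
    |eval x (derivative^[k] q)| ≤ max |eval 1 (derivative^[k] ω)| |eval (-1) (derivative^[k] ω)| := by
  obtain ⟨w, hw0, hw1, hS⟩ := SP.all n k hk hn x hx
  have hgood : ∀ i, Good n k x w (NP (Zi τ i)) := by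
    intro i
    apply hS
    · intro z hz
      unfold Zi at hz
      rw [Multiset.mem_map] at hz
      obtain ⟨j, -, rfl⟩ := hz
      exact hI j
    · unfold Zi
      rw [Multiset.card_map, Finset.card_val, card_erase_of_mem (mem_univ i), card_univ, Fintype.card_fin]
      rfl
  have hD : ∀ i : Fin (n + 1), 0 < (-1) ^ (i : ℕ) * D τ i := sign_D τ hτ
  have hs : ∀ i : ℕ, ((-1 : ℝ) ^ i) * ((-1 : ℝ) ^ i) = 1 := by
    intro i
    rw [← mul_pow]; norm_num
  have hD0 : ∀ i, D τ i ≠ 0 := by
    intro i h0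
    have := hD i
    rw [h0, mul_zero] at this
    exact lt_irrefl _ this
  -- the coefficients of `ω`
  set c : Fin (n + 1) → ℝ := fun i => m i / ((-1) ^ (i : ℕ) * D τ i) with hc
  have hωc : ∀ i, ω.eval (τ i) / D τ i = c i := by
    intro i
    rw [hωτ i, hc]
    have h1 : ((-1 : ℝ) ^ (i : ℕ)) ≠ 0 := by positivity
    rw [div_eq_div_iff (hD0 i) (hD i).ne']
    linear_combination (m i * D τ i) * hs i
  have hqc : ∀ i, |q.eval (τ i) / D τ i| ≤ c i := by
    intro i
    have habs : |D τ i| = (-1) ^ (i : ℕ) * D τ i := by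
      rw [← abs_of_pos (hD i), abs_mul, abs_pow, abs_neg, abs_one, one_pow, one_mul]
    rw [abs_div, habs, hc]
    exact div_le_div_of_nonneg_right (hqτ i) (hD i).le
  have hc0 : ∀ i, 0 ≤ c i := fun i => le_trans (abs_nonneg _) (hqc i)
  have e1 := eval_expand τ hτ ω hω k 1
  have e2 := eval_expand τ hτ ω hω k (-1)
  have e3 := eval_expand τ hτ q hq k x
  simp only [hωc] at e1 e2
  have key : |eval x (derivative^[k] q)| ≤ w * eval 1 (derivative^[k] ω)
      + (1 - w) * ((-1) ^ (n - k) * eval (-1) (derivative^[k] ω)) := by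
    rw [e1, e2, e3]
    refine le_trans (Finset.abs_sum_le_sum_abs _ _) ?_
    rw [Finset.mul_sum, Finset.mul_sum, Finset.mul_sum, ← Finset.sum_add_distrib]
    refine Finset.sum_le_sum fun i _ => ?_
    rw [abs_mul]
    have hg := hgood i
    unfold Good at hg
    calc |eval (τ i) q / D τ i| * |eval x (derivative^[k] (NP (Zi τ i)))|
        ≤ c i * |eval x (derivative^[k] (NP (Zi τ i)))| :=
          mul_le_mul_of_nonneg_right (hqc i) (abs_nonneg _)
      _ ≤ c i * (w * eval 1 (derivative^[k] (NP (Zi τ i)))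
          + (1 - w) * ((-1) ^ (n - k) * eval (-1) (derivative^[k] (NP (Zi τ i))))) :=
          mul_le_mul_of_nonneg_left hg (hc0 i)
      _ = _ := by ring
  refine le_trans key ?_
  have h1 : w * eval 1 (derivative^[k] ω)
      ≤ w * max |eval 1 (derivative^[k] ω)| |eval (-1) (derivative^[k] ω)| :=
    mul_le_mul_of_nonneg_left (le_trans (le_abs_self _) (le_max_left _ _)) hw0
  have h2 : (1 - w) * ((-1) ^ (n - k) * eval (-1) (derivative^[k] ω))
      ≤ (1 - w) * max |eval 1 (derivative^[k] ω)| |eval (-1) (derivative^[k] ω)| := by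
    apply mul_le_mul_of_nonneg_left _ (by linarith)
    refine le_trans (le_abs_self _) ?_
    rw [abs_mul, abs_pow, abs_neg, abs_one, one_pow, one_mul]
    exact le_max_right _ _
  linarith

end Pool.Agent.KS6_88.SN
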