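import Mathlib

set_option autoImplicit false

/-! Joint continuity of the derivatives of polynomials depending on a parameter. -/

namespace Pool.Agent.KS6_88.SN

open Finset Polynomial

/-- all derivatives of `P ε` are jointly continuous in `(ε, x)` -/
def JC (P : ℝ → ℝ[X]) : Prop :=
  ∀ k : ℕ, Continuous fun p : ℝ × ℝ => eval p.2 (derivative^[k] (P p.1))

theorem JC.lin (α β : ℝ → ℝ) (hα : Continuous α) (hβ : Continuous β) :
    JC fun ε => C (α ε) * X + C (β ε) := by
  intro k
  rcases k with _ | k
  · simp only [Function.iterate_zero, id_eq, eval_add, eval_mul, eval_C, eval_X]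
    fun_prop
  · rw [Function.iterate_succ]
    rcases k with _ | k
    · simp only [Function.comp_apply, Function.iterate_zero, id_eq]
      simp only [derivative_add, derivative_mul, derivative_C, derivative_X, zero_mul, zero_add, mul_one,
        add_zero, eval_C]
      fun_prop
    · have : ∀ ε : ℝ, derivative^[k + 1] (derivative (C (α ε) * X + C (β ε))) = 0 := by
        intro ε
        simp only [derivative_add, derivative_mul, derivative_C, derivative_X, zero_mul, zero_add, mul_one,
          add_zero]
        exact iterate_derivative_C (by omega)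
      simp only [Function.comp_apply, this, eval_zero]
      fun_prop

theorem JC.mul {P Q : ℝ → ℝ[X]} (hP : JC P) (hQ : JC Q) : JC fun ε => P ε * Q ε := by
  intro k
  simp only [iterate_derivative_mul, eval_finsetSum, nsmul_eq_mul, eval_mul, eval_natCast]
  refine continuous_finsetSum _ fun i _ => ?_
  exact continuous_const.mul ((hP _).mul (hQ _))

theorem JC.one : JC fun _ => 1 := by
  have := JC.lin (fun _ => 0) (fun _ => 1) continuous_const continuous_const
  simpa using this

theorem JC.prod {ι : Type*} (s : Finset ι) (P : ι → ℝ → ℝ[X]) (h : ∀ i ∈ s, JC (P i)) :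
    JC fun ε => ∏ i ∈ s, P i ε := by
  classical
  induction s using Finset.induction_on with
  | empty => simpa using JC.one
  | insert a s ha ih =>
    simp only [Finset.prod_insert ha]
    exact JC.mul (h a (mem_insert_self _ _)) (ih fun i hi => h i (mem_insert_of_mem hi))

/-- uniform smallness for small parameters -/
theorem JC.eventually_lt {P : ℝ → ℝ[X]} (hP : JC P) (k : ℕ) (M : ℝ)
    (h : ∀ x ∈ Set.Icc (-1 : ℝ) 1, |eval x (derivative^[k] (P 0))| < M) :
    ∀ᶠ ε in nhds (0 : ℝ), ∀ x ∈ Set.Icc (-1 : ℝ) 1, |eval x (derivative^[k] (P ε))| < M := by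
  apply (isCompact_Icc (a := (-1 : ℝ)) (b := 1)).eventually_forall_of_forall_eventually
  intro x hx
  have hc : Continuous fun p : ℝ × ℝ => |eval p.2 (derivative^[k] (P p.1))| := (hP k).abs
  exact (hc.continuousAt (x := ((0 : ℝ), x))).eventually_lt continuousAt_const (h x hx)

end Pool.Agent.KS6_88.SN
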