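import Pool.Agent.KS6_88.SN.N1

set_option autoImplicit false

/-! The limit polynomials of the counterexample. -/

namespace Pool.Agent.KS6_88.SN

open Finset Polynomial

noncomputable def P1 (k e : ℕ) : ℝ[X] := (X - C 1) ^ (k + 1) * (X + C 1) ^ (e + 1)

noncomputable def P2 (k e : ℕ) : ℝ[X] := (X - C 1) ^ (k + 2) * (X + C 1) ^ e

theorem iter_X_sub_mul (P : ℝ[X]) (k : ℕ) :
    derivative^[k] ((X - C 1) * derivative P)
      = (X - C 1) * derivative (derivative^[k] P) + (k : ℝ[X]) * derivative^[k] P := by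
  induction k with
  | zero => simp
  | succ k ih =>
    rw [Function.iterate_succ_apply', ih, Function.iterate_succ_apply' derivative k P]
    simp only [derivative_add, derivative_mul, derivative_sub, derivative_X, derivative_C, derivative_natCast]
    push_cast
    ring

theorem P1_ident (k e : ℕ) :
    (X - C 1) * derivative (P1 k e) = ((k + 1 : ℕ) : ℝ[X]) * P1 k e + ((e + 1 : ℕ) : ℝ[X]) * P2 k e := by
  unfold P1 P2
  rw [derivative_mul, derivative_X_sub_C_pow, derivative_X_add_C_pow]
  simp only [Nat.add_sub_cancel, map_add, map_natCast, map_one, Nat.cast_add, Nat.cast_one]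
  ring

theorem fh_ident (k e : ℕ) :
    (X - C 1) * derivative (derivative^[k] (P1 k e))
      = derivative^[k] (P1 k e) + ((e + 1 : ℕ) : ℝ[X]) * derivative^[k] (P2 k e) := by
  have h := congrArg (fun P => derivative^[k] P) (P1_ident k e)
  beta_reduce at h
  rw [iter_X_sub_mul, iterate_map_add derivative k, iterate_derivative_natCast_mul,
    iterate_derivative_natCast_mul] at h
  push_cast at h ⊢
  linear_combination h

theorem f_one (k e : ℕ) : eval 1 (derivative^[k] (P1 k e)) = 0 := by
  have h : (X - C (1 : ℝ)) ^ (k + 1 - k) ∣ derivative^[k] (P1 k e) :=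
    pow_sub_dvd_iterate_derivative_of_pow_dvd k (Dvd.intro _ rfl)
  rw [show k + 1 - k = 1 by omega, pow_one] at h
  exact dvd_iff_isRoot.mp h

theorem f_neg_one (k e : ℕ) (hke : k ≤ e) : eval (-1) (derivative^[k] (P1 k e)) = 0 := by
  have h : (X - C (-1 : ℝ)) ^ (e + 1 - k) ∣ derivative^[k] (P1 k e) := by
    apply pow_sub_dvd_iterate_derivative_of_pow_dvd k
    rw [show (X - C (-1 : ℝ) : ℝ[X]) = X + C 1 by simp [sub_neg_eq_add]]
    exact Dvd.intro_left _ rfl
  have h2 : (X - C (-1 : ℝ)) ∣ derivative^[k] (P1 k e) := by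
    refine dvd_trans ?_ h
    exact dvd_pow_self _ (by omega)
  exact dvd_iff_isRoot.mp h2

theorem f_ne (k e : ℕ) : derivative^[k] (P1 k e) ≠ 0 := by
  intro h0
  have hmon : (P1 k e).Monic := by
    unfold P1
    exact (monic_X_sub_C 1).pow _ |>.mul ((monic_X_add_C 1).pow _)
  have hdeg : (P1 k e).natDegree = k + e + 2 := by
    unfold P1
    rw [((monic_X_sub_C (1 : ℝ)).pow _).natDegree_mul ((monic_X_add_C (1 : ℝ)).pow _),
      (monic_X_sub_C (1 : ℝ)).natDegree_pow, (monic_X_add_C (1 : ℝ)).natDegree_pow]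
    simp only [natDegree_X_sub_C, natDegree_X_add_C]
    ring
  have h1 := congrArg (fun P : ℝ[X] => P.coeff (e + 2)) h0
  beta_reduce at h1
  rw [coeff_iterate_derivative, coeff_zero] at h1
  have h2 : (P1 k e).coeff (e + 2 + k) = 1 := by
    have := hmon.coeff_natDegree
    rw [hdeg] at this
    rwa [show e + 2 + k = k + e + 2 by ring]
  rw [h2, nsmul_eq_mul, mul_one] at h1
  have h3 : (e + 2 + k).descFactorial k ≠ 0 := by
    rw [Ne, Nat.descFactorial_eq_zero_iff_lt]
    omega
  exact h3 (by exact_mod_cast h1)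

theorem limit (k e : ℕ) (hke : k ≤ e) : ∃ β M x0 : ℝ, 0 < β ∧ β < 1 ∧ 0 < M ∧
    (∀ x ∈ Set.Icc (-1 : ℝ) 1, |eval x (derivative^[k] (P1 k e)) + β * eval x (derivative^[k] (P2 k e))| < M) ∧
    x0 ∈ Set.Icc (-1 : ℝ) 1 ∧
    M < |eval x0 (derivative^[k] (P1 k e)) - β * eval x0 (derivative^[k] (P2 k e))| := by
  set F := derivative^[k] (P1 k e) with hF
  set G := derivative^[k] (P2 k e) with hG
  have hne : (Set.Icc (-1 : ℝ) 1).Nonempty := ⟨0, by norm_num⟩
  obtain ⟨x0, hx0, hmax⟩ := isCompact_Icc.exists_isMaxOn hne (f := fun x : ℝ => |eval x F|)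
    (F.continuous.abs).continuousOn
  have hmax' : ∀ x ∈ Set.Icc (-1 : ℝ) 1, |eval x F| ≤ |eval x0 F| := fun x hx => hmax hx
  set M := |eval x0 F| with hM
  have hM0 : 0 < M := by
    by_contra hcon
    have h0 : M = 0 := le_antisymm (not_lt.mp hcon) (abs_nonneg _)
    have hz : ∀ x ∈ Set.Icc (-1 : ℝ) 1, eval x F = 0 := by
      intro x hx
      have := hmax' x hx
      rw [h0] at this
      exact abs_nonpos_iff.mp this
    have : F = 0 := by
      apply Polynomial.eq_zero_of_infinite_isRoot
      apply Set.Infinite.mono (s := Set.Icc (-1 : ℝ) 1)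
      · intro x hx
        exact hz x hx
      · exact Set.Icc_infinite (by norm_num)
    exact f_ne k e this
  have hcrit : ∀ x1 ∈ Set.Icc (-1 : ℝ) 1, |eval x1 F| = M →
      eval x1 F + ((e : ℝ) + 1) * eval x1 G = 0 := by
    intro x1 hx1 h1
    have hne1 : x1 ≠ 1 := by
      rintro rfl
      rw [hF, f_one, abs_zero] at h1
      linarith
    have hne2 : x1 ≠ -1 := by
      rintro rfl
      rw [hF, f_neg_one k e hke, abs_zero] at h1
      linarith
    have hx1' : x1 ∈ Set.Ioo (-1 : ℝ) 1 := ⟨lt_of_le_of_ne hx1.1 (Ne.symm hne2), lt_of_le_of_ne hx1.2 hne1⟩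
    have hloc : IsLocalMax (fun x => (eval x F) ^ 2) x1 := by
      filter_upwards [Ioo_mem_nhds hx1'.1 hx1'.2] with y hy
      have hy' := hmax' y ⟨hy.1.le, hy.2.le⟩
      rw [← h1] at hy'
      exact sq_le_sq.mpr hy'
    have hder : HasDerivAt (fun x => (eval x F) ^ 2) (2 * (eval x1 F) * eval x1 (derivative F)) x1 := by
      have := (F.hasDerivAt x1).pow 2
      refine this.congr_deriv ?_
      simp
    have h0 := hloc.hasDerivAt_eq_zero hder
    have hFne : eval x1 F ≠ 0 := by
      intro h
      rw [h, abs_zero] at h1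
      linarith
    have hd0 : eval x1 (derivative F) = 0 := by
      rcases mul_eq_zero.mp h0 with h | h
      · rcases mul_eq_zero.mp h with h | h
        · norm_num at h
        · exact absurd h hFne
      · exact h
    have hid := congrArg (eval x1) (fh_ident k e)
    rw [← hF, ← hG, eval_mul, hd0, mul_zero, eval_add, eval_mul, eval_natCast] at hid
    push_cast at hid
    linarith
  have hneg : ∀ x1 ∈ Set.Icc (-1 : ℝ) 1, |eval x1 F| = M → eval x1 F * eval x1 G < 0 := by
    intro x1 hx1 h1
    have h2 := hcrit x1 hx1 h1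
    have hFne : eval x1 F ≠ 0 := by
      intro h
      rw [h, abs_zero] at h1
      linarith
    have hFsq : 0 < (eval x1 F) ^ 2 := by positivity
    have he : (0 : ℝ) < (e : ℝ) + 1 := by positivity
    have h3 : ((e : ℝ) + 1) * (eval x1 F * eval x1 G) = -(eval x1 F) ^ 2 := by
      linear_combination (eval x1 F) * h2
    by_contra hcon
    have := mul_nonneg he.le (not_lt.mp hcon)
    linarith
  -- the compact set where `F G ≥ 0`
  have hKc : IsCompact {x : ℝ | x ∈ Set.Icc (-1 : ℝ) 1 ∧ 0 ≤ eval x F * eval x G} := by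
    apply isCompact_Icc.inter_right (t := {x : ℝ | 0 ≤ eval x F * eval x G})
    exact isClosed_le continuous_const (F.continuous.mul G.continuous)
  have hKne : {x : ℝ | x ∈ Set.Icc (-1 : ℝ) 1 ∧ 0 ≤ eval x F * eval x G}.Nonempty := by
    refine ⟨1, by norm_num, ?_⟩
    rw [hF, f_one, zero_mul]
  obtain ⟨x2, hx2, hmax2⟩ := hKc.exists_isMaxOn hKne (f := fun x : ℝ => |eval x F|)
    (F.continuous.abs).continuousOn
  have hx2M : |eval x2 F| < M := by
    refine lt_of_le_of_ne (hmax' x2 hx2.1) fun h => ?_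
    have := hneg x2 hx2.1 h
    linarith [hx2.2]
  obtain ⟨x3, hx3, hmax3⟩ := isCompact_Icc.exists_isMaxOn hne (f := fun x : ℝ => |eval x G|)
    (G.continuous.abs).continuousOn
  set H := |eval x3 G| + 1 with hH
  have hH0 : 0 < H := by positivity
  have hHle : ∀ x ∈ Set.Icc (-1 : ℝ) 1, |eval x G| < H := by
    intro x hx
    have : |eval x G| ≤ |eval x3 G| := hmax3 hx
    linarith
  set δ := M - |eval x2 F| with hδ
  have hδ0 : 0 < δ := by linarith
  have hδM : δ ≤ M := by
    have := abs_nonneg (eval x2 F)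
    linarith
  set β := min (1 / 2) (δ / H) with hβ
  have hβ0 : 0 < β := lt_min (by norm_num) (by positivity)
  have hβ1 : β < 1 := lt_of_le_of_lt (min_le_left _ _) (by norm_num)
  have hβH : β * H ≤ δ := by
    have : β ≤ δ / H := min_le_right _ _
    rwa [le_div_iff₀ hH0] at this
  refine ⟨β, M, x0, hβ0, hβ1, hM0, ?_, hx0, ?_⟩
  · intro x hx
    have hGx := hHle x hx
    have hβG : β * |eval x G| < δ := lt_of_lt_of_le (mul_lt_mul_of_pos_left hGx hβ0) hβH
    rcases le_or_gt 0 (eval x F * eval x G) with hs | hs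
    · have h1 : |eval x F| ≤ |eval x2 F| := hmax2 (show x ∈ _ from ⟨hx, hs⟩)
      calc |eval x F + β * eval x G| ≤ |eval x F| + |β * eval x G| := abs_add_le _ _
        _ = |eval x F| + β * |eval x G| := by rw [abs_mul, abs_of_pos hβ0]
        _ < M := by linarith
    · have h1 := hmax' x hx
      have hG0 : eval x G ≠ 0 := by
        intro h
        rw [h, mul_zero] at hs
        exact lt_irrefl _ hs
      have hGpos : 0 < |eval x G| := abs_pos.mpr hG0
      have hβG' : β * |eval x G| < M := by linarith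
      rcases lt_or_gt_of_ne hG0 with hG1 | hG1
      · have hF1 : 0 < eval x F := by
          by_contra hcon
          have := mul_nonneg_of_nonpos_of_nonpos (not_lt.mp hcon) hG1.le
          linarith
        rw [abs_of_neg hG1] at hβG' hGpos
        rw [abs_of_pos hF1] at h1
        have : 0 < β * (-eval x G) := by positivity
        rw [abs_lt]
        constructor <;> linarith
      · have hF1 : eval x F < 0 := by
          by_contra hcon
          have := mul_nonneg (not_lt.mp hcon) hG1.le
          linarith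
        rw [abs_of_pos hG1] at hβG' hGpos
        rw [abs_of_neg hF1] at h1
        have : 0 < β * eval x G := by positivity
        rw [abs_lt]
        constructor <;> linarith
  · have h2 := hcrit x0 hx0 rfl
    have he : (0 : ℝ) < (e : ℝ) + 1 := by positivity
    have hG : eval x0 G = - (eval x0 F / ((e : ℝ) + 1)) := by
      field_simp
      linarith
    have h3 : eval x0 F - β * eval x0 G = eval x0 F * (1 + β / ((e : ℝ) + 1)) := by
      rw [hG]
      ring
    have hpos : 0 < β / ((e : ℝ) + 1) := by positivity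
    rw [h3, abs_mul, ← hM, abs_of_pos (by linarith : 0 < 1 + β / ((e : ℝ) + 1))]
    nlinarith

end Pool.Agent.KS6_88.SN
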