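import Pool.Agent.KS6_88.SN.N2

set_option autoImplicit false

/-! The perturbed polynomials of the counterexample. -/

namespace Pool.Agent.KS6_88.SN

open Finset Polynomial

noncomputable def Wp (k e : ℕ) (ε : ℝ) : ℝ[X] :=
  (∏ i ∈ range (k + 1), (C 1 * X + C (((i : ℝ) + 1) * ε - 1))) *
    ∏ i ∈ range e, (C 1 * X + C (1 - ((i : ℝ) + 1) * ε))

noncomputable def omg (k e : ℕ) (β ε : ℝ) : ℝ[X] := Wp k e ε * (C (1 + β) * X + C (1 - β))

noncomputable def qq (k e : ℕ) (β c ε : ℝ) : ℝ[X] :=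
  Wp k e ε * (C (c * (1 - β)) * X + C (c * (1 + β)))

theorem JC_Wp (k e : ℕ) : JC (Wp k e) := by
  unfold Wp
  refine JC.mul (JC.prod _ (fun (i : ℕ) (ε : ℝ) => C 1 * X + C (((i : ℝ) + 1) * ε - 1)) fun i _ => ?_)
    (JC.prod _ (fun (i : ℕ) (ε : ℝ) => C 1 * X + C (1 - ((i : ℝ) + 1) * ε)) fun i _ => ?_)
  · exact JC.lin (fun _ => 1) (fun ε => ((i : ℝ) + 1) * ε - 1) (by fun_prop) (by fun_prop)
  · exact JC.lin (fun _ => 1) (fun ε => 1 - ((i : ℝ) + 1) * ε) (by fun_prop) (by fun_prop)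

theorem JC_omg (k e : ℕ) (β : ℝ) : JC (omg k e β) :=
  JC.mul (JC_Wp k e) (JC.lin (fun _ => 1 + β) (fun _ => 1 - β) continuous_const continuous_const)

theorem JC_qq (k e : ℕ) (β c : ℝ) : JC (qq k e β c) :=
  JC.mul (JC_Wp k e)
    (JC.lin (fun _ => c * (1 - β)) (fun _ => c * (1 + β)) continuous_const continuous_const)

theorem Wp_zero (k e : ℕ) : Wp k e 0 = (X - C 1) ^ (k + 1) * (X + C 1) ^ e := by
  unfold Wp
  simp only [mul_zero, zero_sub, sub_zero, prod_const, card_range]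
  congr 2
  simp [sub_eq_add_neg]
  simp

theorem omg_zero (k e : ℕ) (β : ℝ) : omg k e β 0 = P1 k e + C β * P2 k e := by
  unfold omg P1 P2
  rw [Wp_zero]
  simp only [map_add, map_sub, map_one]
  ring

theorem qq_zero (k e : ℕ) (β c : ℝ) : qq k e β c 0 = C c * (P1 k e + C (-β) * P2 k e) := by
  unfold qq P1 P2
  rw [Wp_zero]
  simp only [map_add, map_sub, map_one, map_mul, map_neg]
  ring

theorem natDegree_Wp (k e : ℕ) (ε : ℝ) : (Wp k e ε).natDegree ≤ k + 1 + e := by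
  unfold Wp
  refine natDegree_mul_le.trans ?_
  have h1 : (∏ i ∈ range (k + 1), (C 1 * X + C (((i : ℝ) + 1) * ε - 1)) : ℝ[X]).natDegree ≤ k + 1 := by
    refine (natDegree_prod_le _ _).trans ?_
    refine (Finset.sum_le_card_nsmul _ _ 1 fun i _ => natDegree_linear_le).trans ?_
    simp
  have h2 : (∏ i ∈ range e, (C 1 * X + C (1 - ((i : ℝ) + 1) * ε)) : ℝ[X]).natDegree ≤ e := by
    refine (natDegree_prod_le _ _).trans ?_
    refine (Finset.sum_le_card_nsmul _ _ 1 fun i _ => natDegree_linear_le).trans ?_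
    simp
  omega

theorem natDegree_omg (k e : ℕ) (β ε : ℝ) : (omg k e β ε).natDegree ≤ k + e + 2 := by
  unfold omg
  refine natDegree_mul_le.trans ?_
  have h1 := natDegree_Wp k e ε
  have h2 : (C (1 + β) * X + C (1 - β) : ℝ[X]).natDegree ≤ 1 := natDegree_linear_le
  omega

theorem natDegree_qq (k e : ℕ) (β c ε : ℝ) : (qq k e β c ε).natDegree ≤ k + e + 2 := by
  unfold qq
  refine natDegree_mul_le.trans ?_
  have h1 := natDegree_Wp k e ε
  have h2 : (C (c * (1 - β)) * X + C (c * (1 + β)) : ℝ[X]).natDegree ≤ 1 := natDegree_linear_le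
  omega

/-- the alternation points -/
noncomputable def tau (k e : ℕ) (ε : ℝ) (i : ℕ) : ℝ :=
  if i ≤ k + 1 then 1 - ((i : ℝ) + 1 / 2) * ε else -1 + (((k + e + 2 - i : ℕ) : ℝ) + 1 / 2) * ε

theorem eval_Wp (k e : ℕ) (ε x : ℝ) : eval x (Wp k e ε) =
    (∏ i ∈ range (k + 1), (x + (((i : ℝ) + 1) * ε - 1))) * ∏ i ∈ range e, (x + (1 - ((i : ℝ) + 1) * ε)) := by
  unfold Wp
  rw [eval_mul, eval_prod, eval_prod]
  simp only [eval_add, eval_mul, eval_C, eval_X, one_mul]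

theorem sign_left (k e : ℕ) (ε : ℝ) (hε : 0 < ε) (hs : ((k : ℝ) + e + 3) * ε ≤ 1 / 2) (i : ℕ)
    (hi : i ≤ k + 1) : 0 < (-1) ^ i * eval (tau k e ε i) (Wp k e ε) := by
  have hsign : (-1 : ℝ) ^ i = ∏ j ∈ range (k + 1), (if j < i then (-1 : ℝ) else 1) := by
    rw [Finset.prod_ite]
    simp only [prod_const, one_pow, mul_one]
    congr 1
    have : (range (k + 1)).filter (fun j => j < i) = range i := by
      ext j
      simp only [mem_filter, mem_range]
      omega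
    rw [this, card_range]
  have hik : (i : ℝ) ≤ (k : ℝ) + 1 := by exact_mod_cast hi
  rw [eval_Wp, ← mul_assoc]
  apply mul_pos
  · rw [hsign, ← Finset.prod_mul_distrib]
    refine Finset.prod_pos fun j hj => ?_
    rw [tau, if_pos hi]
    split_ifs with hji
    · have h1 : (j : ℝ) + 1 ≤ i := by exact_mod_cast hji
      nlinarith
    · have h1 : (i : ℝ) ≤ j := by exact_mod_cast not_lt.mp hji
      nlinarith
  · refine Finset.prod_pos fun j hj => ?_
    rw [mem_range] at hj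
    have h1 : (j : ℝ) + 1 ≤ e := by exact_mod_cast hj
    rw [tau, if_pos hi]
    have h2 : ((i : ℝ) + 1 / 2) * ε + ((j : ℝ) + 1) * ε ≤ ((k : ℝ) + e + 3) * ε := by
      have : (i : ℝ) + 1 / 2 + ((j : ℝ) + 1) ≤ (k : ℝ) + e + 3 := by linarith
      nlinarith
    linarith

theorem sign_right (k e : ℕ) (ε : ℝ) (hε : 0 < ε) (hs : ((k : ℝ) + e + 3) * ε ≤ 1 / 2) (i : ℕ)
    (hi : k + 1 < i) (hin : i ≤ k + e + 2) : (-1) ^ i * eval (tau k e ε i) (Wp k e ε) < 0 := by
  obtain ⟨j, hj⟩ : ∃ j, i + j = k + e + 2 := ⟨k + e + 2 - i, by omega⟩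
  have hje : j ≤ e := by omega
  have hjR : (j : ℝ) ≤ e := by exact_mod_cast hje
  have hτ : tau k e ε i = -1 + ((j : ℝ) + 1 / 2) * ε := by
    rw [tau, if_neg (by omega), show k + e + 2 - i = j by omega]
  have hsign : (-1 : ℝ) ^ i = -((-1) ^ (k + 1) * ∏ l ∈ range e, (if j ≤ l then (-1 : ℝ) else 1)) := by
    rw [Finset.prod_ite]
    simp only [prod_const, one_pow, mul_one]
    have : (range e).filter (fun l => j ≤ l) = Ico j e := by
      ext l
      simp only [mem_filter, mem_range, mem_Ico]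
      omega
    rw [this, Nat.card_Ico, show i = k + 1 + (e - j) + 1 by omega, pow_succ, pow_add]
    ring
  rw [eval_Wp, hsign, hτ]
  have hA : 0 < (-1) ^ (k + 1) * ∏ i ∈ range (k + 1), (-1 + ((j : ℝ) + 1 / 2) * ε + (((i : ℝ) + 1) * ε - 1)) := by
    have : (-1 : ℝ) ^ (k + 1) = ∏ _i ∈ range (k + 1), (-1 : ℝ) := by simp
    rw [this, ← Finset.prod_mul_distrib]
    refine Finset.prod_pos fun l hl => ?_
    rw [mem_range] at hl
    have h1 : (l : ℝ) ≤ k := by exact_mod_cast Nat.lt_succ_iff.mp hl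
    have h2 : ((j : ℝ) + 1 / 2) * ε + ((l : ℝ) + 1) * ε ≤ ((k : ℝ) + e + 3) * ε := by
      have : (j : ℝ) + 1 / 2 + ((l : ℝ) + 1) ≤ (k : ℝ) + e + 3 := by linarith
      nlinarith
    linarith
  have hB : 0 < (∏ l ∈ range e, (if j ≤ l then (-1 : ℝ) else 1)) *
      ∏ i ∈ range e, (-1 + ((j : ℝ) + 1 / 2) * ε + (1 - ((i : ℝ) + 1) * ε)) := by
    rw [← Finset.prod_mul_distrib]
    refine Finset.prod_pos fun l hl => ?_
    split_ifs with hjl
    · have h1 : (j : ℝ) ≤ l := by exact_mod_cast hjl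
      nlinarith
    · have h1 : (l : ℝ) + 1 ≤ j := by exact_mod_cast not_le.mp hjl
      nlinarith
  have := mul_pos hA hB
  nlinarith

theorem tau_left (k e : ℕ) (ε : ℝ) (hε : 0 < ε) (i : ℕ) (hi : i ≤ k + 1) :
    0 < 1 - tau k e ε i ∧ 1 - tau k e ε i ≤ ((k : ℝ) + e + 3) * ε := by
  have hik : (i : ℝ) ≤ (k : ℝ) + 1 := by exact_mod_cast hi
  have he : (0 : ℝ) ≤ e := by positivity
  rw [tau, if_pos hi]
  constructor
  · have : 0 < ((i : ℝ) + 1 / 2) * ε := by positivity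
    linarith
  · nlinarith

theorem tau_right (k e : ℕ) (ε : ℝ) (hε : 0 < ε) (i : ℕ) (hi : k + 1 < i) :
    0 < 1 + tau k e ε i ∧ 1 + tau k e ε i ≤ ((k : ℝ) + e + 3) * ε := by
  rw [tau, if_neg (by omega)]
  have h1 : ((k + e + 2 - i : ℕ) : ℝ) ≤ e := by
    have : k + e + 2 - i ≤ e := by omega
    exact_mod_cast this
  have hk : (0 : ℝ) ≤ k := by positivity
  constructor
  · have : 0 < (((k + e + 2 - i : ℕ) : ℝ) + 1 / 2) * ε := by positivity
    linarith
  · nlinarith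

theorem sign_omg (k e : ℕ) (β ε : ℝ) (hβ : 0 < β) (hβ1 : β < 1) (hε : 0 < ε)
    (hs : ((k : ℝ) + e + 3) * ε ≤ 1 / 2) (hs2 : ((k : ℝ) + e + 3) * ε < β) (i : ℕ)
    (hin : i ≤ k + e + 2) : 0 < (-1) ^ i * eval (tau k e ε i) (omg k e β ε) := by
  unfold omg
  rw [eval_mul, ← mul_assoc]
  simp only [eval_add, eval_mul, eval_C, eval_X]
  rcases Nat.lt_or_ge (k + 1) i with hi | hi
  · have h1 := sign_right k e ε hε hs i hi hin
    have h2 := tau_right k e ε hε i hi
    apply mul_pos_of_neg_of_neg h1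
    nlinarith
  · have h1 := sign_left k e ε hε hs i hi
    have h2 := tau_left k e ε hε i hi
    apply mul_pos h1
    nlinarith

theorem qq_le (k e : ℕ) (β c ε : ℝ) (hβ : 0 < β) (hβ1 : β < 1) (hc0 : 0 < c) (hc1 : c < 1) (hε : 0 < ε)
    (hs : ((k : ℝ) + e + 3) * ε ≤ β * (1 - c) / 2) (i : ℕ) :
    |eval (tau k e ε i) (qq k e β c ε)| ≤ |eval (tau k e ε i) (omg k e β ε)| := by
  unfold qq omg
  rw [eval_mul, eval_mul, abs_mul, abs_mul]
  apply mul_le_mul_of_nonneg_left _ (abs_nonneg _)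
  simp only [eval_add, eval_mul, eval_C, eval_X]
  have hcb : β * (1 - c) ≤ 1 - c := by nlinarith
  have hcb2 : β * (1 - c) < β := by nlinarith
  rcases Nat.lt_or_ge (k + 1) i with hi | hi
  · have h2 := tau_right k e ε hε i hi
    set s := 1 + tau k e ε i with hsdef
    have hτ : tau k e ε i = s - 1 := by rw [hsdef]; ring
    rw [hτ]
    have hs' : s ≤ β * (1 - c) / 2 := by linarith
    have e1 : (1 + β) * (s - 1) + (1 - β) = -(2 * β - (1 + β) * s) := by ring
    have e2 : c * (1 - β) * (s - 1) + c * (1 + β) = c * (2 * β + (1 - β) * s) := by ring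
    have q1 : 0 < 2 * β - (1 + β) * s := by nlinarith
    have q2 : 0 < c * (2 * β + (1 - β) * s) := by
      apply mul_pos hc0
      nlinarith [mul_nonneg (by linarith : (0:ℝ) ≤ 1 - β) h2.1.le]
    rw [e1, e2, abs_neg, abs_of_pos q1, abs_of_pos q2]
    nlinarith [mul_pos h2.1 hβ, mul_pos hc0 h2.1, mul_pos (mul_pos hc0 h2.1) hβ]
  · have h2 := tau_left k e ε hε i hi
    set s := 1 - tau k e ε i with hsdef
    have hτ : tau k e ε i = 1 - s := by rw [hsdef]; ring
    rw [hτ]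
    have hs' : s ≤ β * (1 - c) / 2 := by linarith
    have e1 : (1 + β) * (1 - s) + (1 - β) = 2 - (1 + β) * s := by ring
    have e2 : c * (1 - β) * (1 - s) + c * (1 + β) = c * (2 - (1 - β) * s) := by ring
    have q1 : 0 < 2 - (1 + β) * s := by nlinarith
    have q2 : 0 < c * (2 - (1 - β) * s) := by apply mul_pos hc0; nlinarith
    rw [e1, e2, abs_of_pos q1, abs_of_pos q2]
    nlinarith [mul_pos h2.1 hβ, mul_pos hc0 h2.1, mul_nonneg hc0.le (mul_nonneg (by linarith : (0:ℝ) ≤ 1 - β) h2.1.le)]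

theorem tau_mem (k e : ℕ) (ε : ℝ) (hε : 0 < ε) (hs : ((k : ℝ) + e + 3) * ε ≤ 1 / 2) (i : ℕ) :
    tau k e ε i ∈ Set.Icc (-1 : ℝ) 1 := by
  rcases Nat.lt_or_ge (k + 1) i with hi | hi
  · have h2 := tau_right k e ε hε i hi
    constructor <;> linarith
  · have h2 := tau_left k e ε hε i hi
    constructor <;> linarith

theorem tau_anti (k e : ℕ) (ε : ℝ) (hε : 0 < ε) (hs : ((k : ℝ) + e + 3) * ε ≤ 1 / 2) (i j : ℕ)
    (hij : i < j) (hj : j ≤ k + e + 2) : tau k e ε j < tau k e ε i := by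
  have hijR : (i : ℝ) + 1 ≤ j := by exact_mod_cast hij
  rcases Nat.lt_or_ge (k + 1) i with hi | hi
  · rw [tau, tau, if_neg (by omega), if_neg (by omega)]
    have : ((k + e + 2 - j : ℕ) : ℝ) + 1 ≤ ((k + e + 2 - i : ℕ) : ℝ) := by
      have : k + e + 2 - j + 1 ≤ k + e + 2 - i := by omega
      exact_mod_cast this
    nlinarith
  · rcases Nat.lt_or_ge (k + 1) j with hj' | hj'
    · have h1 := tau_right k e ε hε j hj'
      have h2 := tau_left k e ε hε i hi
      linarith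
    · rw [tau, tau, if_pos (by omega), if_pos (by omega)]
      nlinarith

end Pool.Agent.KS6_88.SN
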