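import Pool.Agent.KS6_88.SN.N3
import Pool.Graph.R_seed8.Results.MP_01622d_an.SnakeNotExtremal

set_option autoImplicit false

/-! The snake polynomial is not extremal for `n ≥ 2k+2`. -/

namespace Pool.Agent.KS6_88.SN

open Finset Polynomial
open Pool.Agent.Results.MP_01622d_an (SnakeNotExtremal.IsMajorant SnakeNotExtremal.Admissible
  SnakeNotExtremal.IsSnake SnakeNotExtremal.supNorm SnakeNotExtremal.le_supNorm SnakeNotExtremal.supNorm_le)

/-- a polynomial with alternating values dominating `q` at the nodes is the snake polynomial of a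
strictly positive majorant which admits `q` -/
theorem snake_of (n : ℕ) (ω q : ℝ[X]) (τ : Fin (n + 1) → ℝ) (hω : ω.natDegree ≤ n) (hq : q.natDegree ≤ n)
    (hτ : ∀ i j, i < j → τ j < τ i) (hI : ∀ i, τ i ∈ Set.Icc (-1 : ℝ) 1)
    (hpos : ∀ i : Fin (n + 1), 0 < (-1) ^ (i : ℕ) * ω.eval (τ i))
    (hle : ∀ i, |q.eval (τ i)| ≤ |ω.eval (τ i)|) :
    ∃ μ : ℝ → ℝ, SnakeNotExtremal.IsMajorant μ ∧ (∀ x ∈ Set.Icc (-1 : ℝ) 1, 0 < μ x) ∧
      SnakeNotExtremal.IsSnake n μ ω ∧ SnakeNotExtremal.Admissible n μ q := by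
  obtain ⟨i0, -, hi0⟩ := (univ : Finset (Fin (n + 1))).exists_min_image (fun i => |ω.eval (τ i)|) univ_nonempty
  have habs : ∀ i : Fin (n + 1), |ω.eval (τ i)| = (-1) ^ (i : ℕ) * ω.eval (τ i) := by
    intro i
    rw [← abs_of_pos (hpos i), abs_mul, abs_pow, abs_neg, abs_one, one_pow, one_mul]
  have hη : 0 < |ω.eval (τ i0)| := by
    rw [habs]
    exact hpos i0
  refine ⟨fun x => max (max |ω.eval x| |q.eval x|) |ω.eval (τ i0)|, ⟨?_, ?_⟩, ?_, ⟨⟨hω, ?_⟩, τ, hτ, hI, ?_⟩,
    hq, ?_⟩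
  · exact (((ω.continuous.abs).max (q.continuous.abs)).max continuous_const).continuousOn
  · intro x _
    exact le_max_of_le_right (abs_nonneg _)
  · intro x _
    exact lt_of_lt_of_le hη (le_max_right _ _)
  · intro x _
    exact le_trans (le_max_left _ _) (le_max_left _ _)
  · intro i
    have h1 : max (max |ω.eval (τ i)| |q.eval (τ i)|) |ω.eval (τ i0)| = |ω.eval (τ i)| := by
      rw [max_eq_left (hle i), max_eq_left (hi0 i (mem_univ i))]
    show ω.eval (τ i) = (-1) ^ (i : ℕ) * (max (max |ω.eval (τ i)| |q.eval (τ i)|) |ω.eval (τ i0)|)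
    rw [h1, habs, ← mul_assoc, ← mul_pow]
    norm_num
  · intro x _
    exact le_trans (le_max_right _ _) (le_max_left _ _)

theorem supNorm_nonneg (P : ℝ[X]) : 0 ≤ SnakeNotExtremal.supNorm P :=
  le_trans (abs_nonneg _) (SnakeNotExtremal.le_supNorm P (x := 0) (by norm_num))

theorem supNorm_lt (P : ℝ[X]) (M : ℝ) (h : ∀ x ∈ Set.Icc (-1 : ℝ) 1, |P.eval x| < M) :
    SnakeNotExtremal.supNorm P < M := by
  have hne : (Set.Icc (-1 : ℝ) 1).Nonempty := ⟨0, by norm_num⟩
  obtain ⟨x0, hx0, hmax⟩ := isCompact_Icc.exists_isMaxOn hne (f := fun x : ℝ => |eval x P|)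
    (P.continuous.abs).continuousOn
  refine lt_of_le_of_lt (SnakeNotExtremal.supNorm_le P (M := |P.eval x0|) fun x hx => hmax hx) (h x0 hx0)

/-- the snake polynomial is not extremal for `n ≥ 2k+2` -/
theorem not_extremal (k n : ℕ) (hn : 2 * k + 2 ≤ n) :
    ∃ (μ : ℝ → ℝ) (ω q : ℝ[X]), SnakeNotExtremal.IsMajorant μ ∧
      (∀ x ∈ Set.Icc (-1 : ℝ) 1, 0 < μ x) ∧ SnakeNotExtremal.IsSnake n μ ω ∧
      SnakeNotExtremal.Admissible n μ q ∧
      SnakeNotExtremal.supNorm (derivative^[k] ω) < SnakeNotExtremal.supNorm (derivative^[k] q) := by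
  obtain ⟨e, rfl⟩ : ∃ e, n = k + e + 2 := ⟨n - k - 2, by omega⟩
  have hke : k ≤ e := by omega
  obtain ⟨β, M, x0, hβ0, hβ1, hM0, h1, hx0, h2⟩ := limit k e hke
  set T := |eval x0 (derivative^[k] (P1 k e)) - β * eval x0 (derivative^[k] (P2 k e))| with hT
  have hT0 : 0 < T := by linarith
  obtain ⟨c, hc1, hc2⟩ := exists_between ((div_lt_one hT0).mpr h2)
  have hc0 : 0 < c := lt_trans (by positivity) hc1
  have hMc : M < c * T := by rwa [div_lt_iff₀ hT0] at hc1
  -- small parameters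
  have ev1 : ∀ᶠ ε in nhds (0 : ℝ), ∀ x ∈ Set.Icc (-1 : ℝ) 1, |eval x (derivative^[k] (omg k e β ε))| < M := by
    apply (JC_omg k e β).eventually_lt k M
    intro x hx
    rw [omg_zero, iterate_map_add derivative k, iterate_derivative_C_mul, eval_add, eval_mul, eval_C]
    exact h1 x hx
  have ev2 : ∀ᶠ ε in nhds (0 : ℝ), M < |eval x0 (derivative^[k] (qq k e β c ε))| := by
    have hcont : Continuous fun ε : ℝ => |eval x0 (derivative^[k] (qq k e β c ε))| := by
      have := (JC_qq k e β c k).comp (Continuous.prodMk continuous_id (continuous_const (y := x0)))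
      exact this.abs
    apply hcont.continuousAt.eventually_const_lt
    have e1 : eval x0 (derivative^[k] (qq k e β c 0))
        = c * (eval x0 (derivative^[k] (P1 k e)) - β * eval x0 (derivative^[k] (P2 k e))) := by
      rw [qq_zero, iterate_derivative_C_mul, iterate_map_add derivative k, iterate_derivative_C_mul, eval_mul,
        eval_add, eval_mul, eval_C, eval_C]
      ring
    beta_reduce
    rw [e1, abs_mul, abs_of_pos hc0]
    exact hMc
  have hr : 0 < β * (1 - c) / 2 / ((k : ℝ) + e + 3) := by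
    have : 0 < 1 - c := by linarith
    positivity
  have ev3 : ∀ᶠ ε in nhds (0 : ℝ), ε < β * (1 - c) / 2 / ((k : ℝ) + e + 3) := by
    exact Iio_mem_nhds hr
  have ev := (ev1.and (ev2.and ev3)).filter_mono (nhdsWithin_le_nhds (s := Set.Ioi (0 : ℝ)))
  obtain ⟨ε, ⟨g1, g2, g3⟩, hε⟩ := (ev.and self_mem_nhdsWithin).exists
  have hε0 : 0 < ε := hε
  have hs : ((k : ℝ) + e + 3) * ε ≤ β * (1 - c) / 2 := by
    rw [lt_div_iff₀ (by positivity)] at g3
    linarith
  have hb1 : β * (1 - c) < β := by nlinarith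
  have hs1 : ((k : ℝ) + e + 3) * ε ≤ 1 / 2 := by linarith
  have hs2 : ((k : ℝ) + e + 3) * ε < β := by linarith
  obtain ⟨μ, m1, m2, m3, m4⟩ := snake_of (k + e + 2) (omg k e β ε) (qq k e β c ε)
    (fun i : Fin (k + e + 2 + 1) => tau k e ε i) (natDegree_omg k e β ε) (natDegree_qq k e β c ε)
    (fun i j hij => tau_anti k e ε hε0 hs1 i j (by exact_mod_cast hij) (by omega))
    (fun i => tau_mem k e ε hε0 hs1 i)
    (fun i => sign_omg k e β ε hβ0 hβ1 hε0 hs1 hs2 i (by omega))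
    (fun i => qq_le k e β c ε hβ0 hβ1 hc0 hc2 hε0 hs i)
  refine ⟨μ, omg k e β ε, qq k e β c ε, m1, m2, m3, m4, ?_⟩
  exact lt_trans (supNorm_lt _ M g1) (lt_of_lt_of_le g2 (SnakeNotExtremal.le_supNorm _ hx0))

end Pool.Agent.KS6_88.SN
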