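import Mathlib

set_option autoImplicit false

/-! Krawtchouk numbers `g n k a = [X^k] (X - v)^a (X + u)^(n - a)`: orthogonality and the three-term
recurrence. -/

namespace Pool.Agent.KS6_88.SN

open Polynomial Finset

/-- `(X - v)^a (X + u)^(n-a)` -/
noncomputable def A (n a : ℕ) (u v : ℝ) : ℝ[X] := (X - C v) ^ a * (X + C u) ^ (n - a)

/-- the coefficient of `X^k` in `A` -/
noncomputable def g (n k a : ℕ) (u v : ℝ) : ℝ := (A n a u v).coeff k

theorem coeff_lin_pow (n k : ℕ) (t b : ℝ) :
    ((C t * X + C b) ^ n).coeff k = (n.choose k : ℝ) * t ^ k * b ^ (n - k) := by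
  rw [add_pow, finsetSum_coeff]
  have h : ∀ m ∈ range (n + 1), ((C t * X) ^ m * C b ^ (n - m) * (n.choose m : ℝ[X])).coeff k
      = if m = k then (n.choose k : ℝ) * t ^ k * b ^ (n - k) else 0 := by
    intro m _
    have : (C t * X) ^ m * C b ^ (n - m) * (n.choose m : ℝ[X])
        = C (t ^ m * b ^ (n - m) * (n.choose m : ℝ)) * X ^ m := by
      rw [mul_pow]
      simp only [map_mul, map_pow, map_natCast]
      ring
    rw [this, coeff_C_mul, coeff_X_pow]
    by_cases hmk : m = k
    · subst hmk; simp; ring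
    · rw [if_neg (fun h => hmk h.symm), if_neg hmk]; simp
  rw [Finset.sum_congr rfl h]
  by_cases hk : k ≤ n
  · rw [Finset.sum_ite_eq' (range (n + 1)) k, if_pos (by simp; omega)]
  · rw [Finset.sum_ite_eq' (range (n + 1)) k, if_neg (by simp; omega), Nat.choose_eq_zero_of_lt (by omega)]
    simp

theorem orth_poly (n : ℕ) (u v t : ℝ) (h : u + v = 1) :
    ∑ a ∈ range (n + 1), C ((n.choose a : ℝ) * u ^ a * v ^ (n - a) * (A n a u v).eval t) * A n a u v
      = (C t * X + C (u * v)) ^ n := by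
  have hv : v = 1 - u := by linarith
  have h1 : C t * X + C (u * v) = C u * ((X - C v) * C (t - v)) + C v * ((X + C u) * C (t + u)) := by
    rw [hv]
    simp only [map_sub, map_add, map_mul, map_one]
    ring
  rw [h1, add_pow]
  refine Finset.sum_congr rfl fun a ha => ?_
  unfold A
  rw [eval_mul, eval_pow, eval_pow, mul_pow, mul_pow, mul_pow, mul_pow]
  simp only [eval_sub, eval_add, eval_X, eval_C, map_mul, map_pow, map_sub, map_add, map_natCast]
  ring

theorem orth_coeff (n k : ℕ) (u v t : ℝ) (h : u + v = 1) :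
    ∑ a ∈ range (n + 1), ((n.choose a : ℝ) * u ^ a * v ^ (n - a) * (A n a u v).eval t) * g n k a u v
      = (n.choose k : ℝ) * t ^ k * (u * v) ^ (n - k) := by
  have := congrArg (fun P : ℝ[X] => P.coeff k) (orth_poly n u v t h)
  simp only [finsetSum_coeff, coeff_C_mul, coeff_lin_pow] at this
  exact this

/-- orthogonality of the Krawtchouk numbers (the diagonal case) -/
theorem orth (n k : ℕ) (u v : ℝ) (h : u + v = 1) :
    ∑ a ∈ range (n + 1), ((n.choose a : ℝ) * u ^ a * v ^ (n - a)) * g n k a u v ^ 2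
      = (n.choose k : ℝ) * (u * v) ^ (n - k) := by
  have hp : ∑ a ∈ range (n + 1), C ((n.choose a : ℝ) * u ^ a * v ^ (n - a) * g n k a u v) * A n a u v
      = C ((n.choose k : ℝ) * (u * v) ^ (n - k)) * X ^ k := by
    apply Polynomial.funext
    intro t
    rw [eval_finsetSum]
    simp only [eval_mul, eval_C, eval_pow, eval_X]
    have := orth_coeff n k u v t h
    rw [show (n.choose k : ℝ) * (u * v) ^ (n - k) * t ^ k = (n.choose k : ℝ) * t ^ k * (u * v) ^ (n - k) by ring,
      ← this]
    refine Finset.sum_congr rfl fun a _ => ?_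
    ring
  have := congrArg (fun P : ℝ[X] => P.coeff k) hp
  simp only [finsetSum_coeff, coeff_C_mul, coeff_X_pow_self, mul_one] at this
  rw [← this]
  refine Finset.sum_congr rfl fun a _ => ?_
  rw [g]
  ring

/-- two terms of the orthogonality relation -/
theorem orth_two (n k a b : ℕ) (u v : ℝ) (h : u + v = 1) (hu : 0 ≤ u) (hv : 0 ≤ v)
    (ha : a ≤ n) (hb : b ≤ n) (hab : a ≠ b) :
    ((n.choose a : ℝ) * u ^ a * v ^ (n - a)) * g n k a u v ^ 2 +
      ((n.choose b : ℝ) * u ^ b * v ^ (n - b)) * g n k b u v ^ 2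
      ≤ (n.choose k : ℝ) * (u * v) ^ (n - k) := by
  rw [← orth n k u v h]
  have hs : ({a, b} : Finset ℕ) ⊆ range (n + 1) := by
    intro x hx
    simp at hx ⊢
    omega
  rw [← Finset.sum_pair (f := fun a => ((n.choose a : ℝ) * u ^ a * v ^ (n - a)) * g n k a u v ^ 2) hab]
  refine Finset.sum_le_sum_of_subset_of_nonneg hs fun i _ _ => ?_
  positivity

theorem coeff_X_mul_derivative (P : ℝ[X]) (k : ℕ) :
    (X * derivative P).coeff k = (k : ℝ) * P.coeff k := by
  rcases k with _ | k
  · simp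
  · rw [coeff_X_mul, coeff_derivative]
    push_cast
    ring

/-- the three-term recurrence -/
theorem rec3 (n k a : ℕ) (u v : ℝ) (h : u + v = 1) (ha : 1 ≤ a) (han : a + 1 ≤ n) :
    u * ((n : ℝ) - a) * g n k (a + 1) u v + v * a * g n k (a - 1) u v
      = (u * ((n : ℝ) - a) + v * a - ((n : ℝ) - k)) * g n k a u v := by
  obtain ⟨a, rfl⟩ : ∃ a', a = a' + 1 := ⟨a - 1, by omega⟩
  obtain ⟨m, rfl⟩ : ∃ m, n = a + 1 + m + 1 := ⟨n - (a + 2), by omega⟩
  have hv : v = 1 - u := by linarith
  have hA1 : A (a + 1 + m + 1) (a + 1 + 1) u v = (X - C v) ^ a * (X + C u) ^ m * (X - C v) ^ 2 := by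
    unfold A
    rw [show a + 1 + m + 1 - (a + 1 + 1) = m by omega]
    ring
  have hA2 : A (a + 1 + m + 1) (a + 1 - 1) u v = (X - C v) ^ a * (X + C u) ^ m * (X + C u) ^ 2 := by
    unfold A
    rw [show a + 1 + m + 1 - (a + 1 - 1) = m + 2 by omega, show a + 1 - 1 = a by omega]
    ring
  have hA3 : A (a + 1 + m + 1) (a + 1) u v = (X - C v) ^ a * (X + C u) ^ m * ((X - C v) * (X + C u)) := by
    unfold A
    rw [show a + 1 + m + 1 - (a + 1) = m + 1 by omega]
    ring
  have hder : derivative (A (a + 1 + m + 1) (a + 1) u v) =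
      (X - C v) ^ a * (X + C u) ^ m * (C ((a : ℝ) + 1) * (X + C u) + C ((m : ℝ) + 1) * (X - C v)) := by
    unfold A
    rw [show a + 1 + m + 1 - (a + 1) = m + 1 by omega, derivative_mul, derivative_X_sub_C_pow,
      derivative_X_add_C_pow]
    simp only [Nat.add_sub_cancel, map_add, map_natCast, map_one, Nat.cast_add, Nat.cast_one]
    ring
  have key : C (u * ((m : ℝ) + 1)) * A (a + 1 + m + 1) (a + 1 + 1) u v
      + C (v * ((a : ℝ) + 1)) * A (a + 1 + m + 1) (a + 1 - 1) u v
      = C (u * ((m : ℝ) + 1) + v * ((a : ℝ) + 1) - ((a : ℝ) + m + 2)) * A (a + 1 + m + 1) (a + 1) u v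
        + X * derivative (A (a + 1 + m + 1) (a + 1) u v) := by
    rw [hder, hA1, hA2, hA3, hv]
    simp only [map_add, map_mul, map_sub, map_one, map_natCast, map_ofNat]
    ring
  have := congrArg (fun P : ℝ[X] => P.coeff k) key
  simp only [coeff_add, coeff_C_mul, coeff_X_mul_derivative, Nat.add_sub_cancel] at this
  simp only [g, Nat.add_sub_cancel]
  push_cast
  linear_combination this

/-- the recurrence at the end `a = n` -/
theorem rec_end (n k : ℕ) (u v : ℝ) (h : u + v = 1) (hn : 1 ≤ n) :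
    v * n * g n k (n - 1) u v = (v * n - ((n : ℝ) - k)) * g n k n u v := by
  obtain ⟨a, rfl⟩ : ∃ a', n = a' + 1 := ⟨n - 1, by omega⟩
  have hv : v = 1 - u := by linarith
  have hA2 : A (a + 1) (a + 1 - 1) u v = (X - C v) ^ a * (X + C u) := by
    unfold A
    rw [show a + 1 - (a + 1 - 1) = 1 by omega, show a + 1 - 1 = a by omega]
    ring
  have hA3 : A (a + 1) (a + 1) u v = (X - C v) ^ a * (X - C v) := by
    unfold A
    rw [show a + 1 - (a + 1) = 0 by omega]
    ring
  have hder : derivative (A (a + 1) (a + 1) u v) = (X - C v) ^ a * C ((a : ℝ) + 1) := by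
    unfold A
    rw [show a + 1 - (a + 1) = 0 by omega, pow_zero, mul_one, derivative_X_sub_C_pow]
    simp only [Nat.add_sub_cancel, map_add, map_natCast, map_one, Nat.cast_add, Nat.cast_one]
    ring
  have key : C (v * ((a : ℝ) + 1)) * A (a + 1) (a + 1 - 1) u v
      = C (v * ((a : ℝ) + 1) - ((a : ℝ) + 1)) * A (a + 1) (a + 1) u v
        + X * derivative (A (a + 1) (a + 1) u v) := by
    rw [hder, hA2, hA3, hv]
    simp only [map_add, map_mul, map_sub, map_one, map_natCast]
    ring
  have := congrArg (fun P : ℝ[X] => P.coeff k) key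
  simp only [coeff_add, coeff_C_mul, coeff_X_mul_derivative, Nat.add_sub_cancel] at this
  simp only [g, Nat.add_sub_cancel]
  push_cast
  linear_combination this

/-- reflection -/
theorem abs_g_symm (n k a : ℕ) (u v : ℝ) (ha : a ≤ n) :
    |g n k a u v| = |g n k (n - a) v u| := by
  have h1 : (A n a u v).comp (-X) = (-1) ^ n * A n (n - a) v u := by
    unfold A
    rw [show n - (n - a) = a by omega]
    simp only [mul_comp, pow_comp, sub_comp, add_comp, X_comp, C_comp]
    rw [show (-X - C v : ℝ[X]) = (-1) * (X + C v) by ring, show (-X + C u : ℝ[X]) = (-1) * (X - C u) by ring,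
      mul_pow, mul_pow]
    have : ((-1 : ℝ[X])) ^ n = (-1) ^ a * (-1) ^ (n - a) := by rw [← pow_add]; congr 1; omega
    rw [this]
    ring
  have h2 := congrArg (fun P : ℝ[X] => P.coeff k) h1
  rw [show ((-1 : ℝ[X])) ^ n = C ((-1 : ℝ) ^ n) by simp, coeff_C_mul] at h2
  have h3 : ((A n a u v).comp (-X)).coeff k = (-1) ^ k * (A n a u v).coeff k := by
    rw [show (-X : ℝ[X]) = C (-1) * X by simp]
    rw [comp_C_mul_X_coeff]
    ring
  rw [h3] at h2
  have h4 := congrArg abs h2
  simp only [abs_mul, abs_pow, abs_neg, abs_one, one_pow, one_mul] at h4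
  exact h4

end Pool.Agent.KS6_88.SN
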