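import Pool.Agent.KS6_88.SN.V1

set_option autoImplicit false

/-! The normalisation constants `K d m = ∏_{0<i<m} (d²-i²)/i²`. -/

namespace Pool.Agent.KS6_88.SN

open Finset

/-- `∏_{0<i<m} (d²-i²)/i²` -/
noncomputable def K (d m : ℕ) : ℝ := ∏ i ∈ Ico 1 m, (((d : ℝ) ^ 2 - (i : ℝ) ^ 2) / (i : ℝ) ^ 2)

theorem K_one (d : ℕ) : K d 1 = 1 := by simp [K]

theorem K_succ (d m : ℕ) (hm : 1 ≤ m) :
    K d (m + 1) = K d m * (((d : ℝ) ^ 2 - (m : ℝ) ^ 2) / (m : ℝ) ^ 2) := by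
  unfold K
  rw [Finset.prod_Ico_succ_top hm]

theorem pairK (D P p : ℝ) (hp : 0 < p) (hpP : p ≤ P) (hPD : 4 * P ≤ D) :
    ((D - P) / P) ^ 2 ≤ ((D + p) ^ 2 - 4 * D * P) / p ^ 2 := by
  have hP : 0 < P := lt_of_lt_of_le hp hpP
  rw [div_pow, div_le_div_iff₀ (by positivity) (by positivity)]
  have hD : 0 < D := by linarith
  have key : ((D + p) ^ 2 - 4 * D * P) * P ^ 2 - (D - P) ^ 2 * p ^ 2
      = D * (P - p) * (D * (P + p) - 2 * P * p - 4 * P ^ 2) := by ring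
  have h1 : 0 ≤ D * (P + p) - 2 * P * p - 4 * P ^ 2 := by
    nlinarith [mul_le_mul_of_nonneg_right hPD (by positivity : 0 ≤ P + p), mul_pos hP hp]
  have h2 : 0 ≤ D * (P - p) := mul_nonneg hD.le (by linarith)
  nlinarith [mul_nonneg h2 h1]

theorem K_lower (d m : ℕ) (hm : 1 ≤ m) (hmd : m ≤ d) :
    ((4 * (d : ℝ) ^ 2 - (m : ℝ) ^ 2) / (m : ℝ) ^ 2) ^ (m - 1) ≤ K d m := by
  have hm0 : (0 : ℝ) < m := by exact_mod_cast hm
  have hd0 : (m : ℝ) ≤ d := by exact_mod_cast hmd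
  have hK0 : 0 ≤ K d m := by
    unfold K
    refine Finset.prod_nonneg fun i hi => ?_
    rw [mem_Ico] at hi
    have h1 : (1 : ℝ) ≤ i := by exact_mod_cast hi.1
    have h2 : (i : ℝ) ≤ m := by exact_mod_cast hi.2.le
    apply div_nonneg _ (by positivity)
    nlinarith
  have hsq : (((4 * (d : ℝ) ^ 2 - (m : ℝ) ^ 2) / (m : ℝ) ^ 2) ^ (m - 1)) ^ 2 ≤ K d m ^ 2 := by
    have hrefl : K d m = ∏ i ∈ Ico 1 m, (((d : ℝ) ^ 2 - ((m - i : ℕ) : ℝ) ^ 2) / ((m - i : ℕ) : ℝ) ^ 2) := by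
      unfold K
      refine Finset.prod_nbij' (fun i => m - i) (fun i => m - i) ?_ ?_ ?_ ?_ ?_
      · intro i hi; simp only [mem_Ico] at hi ⊢; omega
      · intro i hi; simp only [mem_Ico] at hi ⊢; omega
      · intro i hi; simp only [mem_Ico] at hi ⊢; omega
      · intro i hi; simp only [mem_Ico] at hi ⊢; omega
      · intro i hi
        simp only [mem_Ico] at hi
        rw [show m - (m - i) = i by omega]
    have hmul : K d m ^ 2 = ∏ i ∈ Ico 1 m, ((((d : ℝ) ^ 2 - (i : ℝ) ^ 2) / (i : ℝ) ^ 2) *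
        (((d : ℝ) ^ 2 - ((m - i : ℕ) : ℝ) ^ 2) / ((m - i : ℕ) : ℝ) ^ 2)) := by
      rw [Finset.prod_mul_distrib, ← hrefl, sq]
      rfl
    rw [hmul, ← pow_mul, mul_comm (m - 1) 2, pow_mul]
    have hc : (Ico 1 m).card = m - 1 := by simp
    rw [← hc, ← Finset.prod_const]
    apply Finset.prod_le_prod
    · intro i hi
      positivity
    · intro i hi
      rw [mem_Ico] at hi
      have h1 : (1 : ℝ) ≤ i := by exact_mod_cast hi.1
      have h2 : (i : ℝ) + 1 ≤ m := by exact_mod_cast hi.2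
      rw [Nat.cast_sub hi.2.le]
      have hmi : (1 : ℝ) ≤ (m : ℝ) - i := by linarith
      have hp : (0 : ℝ) < i * ((m : ℝ) - i) := by positivity
      have := pairK ((d : ℝ) ^ 2) ((m : ℝ) ^ 2 / 4) (i * ((m : ℝ) - i)) hp
        (by nlinarith [sq_nonneg ((m : ℝ) - 2 * i)]) (by nlinarith)
      have e1 : ((d : ℝ) ^ 2 - (m : ℝ) ^ 2 / 4) / ((m : ℝ) ^ 2 / 4)
          = (4 * (d : ℝ) ^ 2 - (m : ℝ) ^ 2) / (m : ℝ) ^ 2 := by
        field_simp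
      have hi0 : (i : ℝ) ≠ 0 := by positivity
      have hmi0 : ((m : ℝ) - i) ≠ 0 := by positivity
      have e2 : (((d : ℝ) ^ 2 + i * ((m : ℝ) - i)) ^ 2 - 4 * (d : ℝ) ^ 2 * ((m : ℝ) ^ 2 / 4)) / (i * ((m : ℝ) - i)) ^ 2
          = (((d : ℝ) ^ 2 - (i : ℝ) ^ 2) / (i : ℝ) ^ 2) * (((d : ℝ) ^ 2 - ((m : ℝ) - i) ^ 2) / ((m : ℝ) - i) ^ 2) := by
        rw [div_mul_div_comm, mul_pow]
        congr 1
        ring
      rw [← e1, ← e2]
      exact this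
  exact (sq_le_sq₀ (pow_nonneg (div_nonneg (by nlinarith) (by positivity)) _) hK0).mp hsq

end Pool.Agent.KS6_88.SN
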