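import Pool.Agent.KS6_88.SN.V2

set_option autoImplicit false

/-! Normalised Krawtchouk numbers for `n = 2d-1`, `k = d-1`: recurrence and unitarity. -/

namespace Pool.Agent.KS6_88.SN

open Finset

theorem choose_up (d m : ℕ) (hd : 1 ≤ d) :
    (m : ℝ) * ((d - 1 + (m + 1)).choose d : ℝ) = ((d : ℝ) + m) * ((d - 1 + m).choose d : ℝ) := by
  have h := Nat.choose_mul_succ_eq (d - 1 + m) d
  have e1 : d - 1 + m + 1 = d - 1 + (m + 1) := by omega
  have e2 : d - 1 + m + 1 - d = m := by omega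
  have e3 : d - 1 + m + 1 = d + m := by omega
  rw [e2, e3] at h
  rw [show d - 1 + (m + 1) = d + m by omega]
  have h' : (((d - 1 + m).choose d : ℕ) : ℝ) * ((d : ℝ) + m) = (((d + m).choose d : ℕ) : ℝ) * (m : ℝ) := by
    exact_mod_cast h
  linarith

theorem K_choose (d m : ℕ) (hd : 1 ≤ d) (hm : 1 ≤ m) (hmd : m ≤ d) :
    ((2 * d - 1).choose (d - 1 + m) : ℝ) * ((d - 1 + m).choose d : ℝ) ^ 2
      = K d m * ((2 * d - 1).choose d : ℝ) := by
  induction m, hm using Nat.le_induction with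
  | base =>
    rw [K_one, show d - 1 + 1 = d by omega]
    simp
  | succ m hm ih =>
    have ih := ih (by omega)
    have hm0 : (0 : ℝ) < m := by exact_mod_cast hm
    have h1 := choose_up d m hd
    have h2 := Nat.choose_succ_right_eq (2 * d - 1) (d - 1 + m)
    rw [show d - 1 + m + 1 = d + m by omega, show 2 * d - 1 - (d - 1 + m) = d - m by omega] at h2
    have h2' : (((2 * d - 1).choose (d + m) : ℕ) : ℝ) * ((d : ℝ) + m)
        = (((2 * d - 1).choose (d - 1 + m) : ℕ) : ℝ) * ((d : ℝ) - m) := by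
      rw [← Nat.cast_sub (by omega : m ≤ d)]
      exact_mod_cast h2
    rw [show d - 1 + (m + 1) = d + m by omega] at h1 ⊢
    rw [K_succ d m hm]
    have hdm : (0 : ℝ) < (d : ℝ) + m := by positivity
    have h3 : (((d + m).choose d : ℕ) : ℝ) = ((d : ℝ) + m) * ((d - 1 + m).choose d : ℝ) / m := by
      rw [eq_div_iff hm0.ne']; linarith
    have h4 : (((2 * d - 1).choose (d + m) : ℕ) : ℝ)
        = (((2 * d - 1).choose (d - 1 + m) : ℕ) : ℝ) * ((d : ℝ) - m) / ((d : ℝ) + m) := by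
      rw [eq_div_iff hdm.ne']; linarith
    rw [h3, h4]
    have : K d m * (((d : ℝ) ^ 2 - (m : ℝ) ^ 2) / (m : ℝ) ^ 2) * ((2 * d - 1).choose d : ℝ)
        = (K d m * ((2 * d - 1).choose d : ℝ)) * (((d : ℝ) ^ 2 - (m : ℝ) ^ 2) / (m : ℝ) ^ 2) := by ring
    rw [this, ← ih]
    field_simp
    ring

/-- normalised Krawtchouk number -/
noncomputable def Y (d : ℕ) (u v : ℝ) (j : ℕ) : ℝ :=
  (-1) ^ d * g (2 * d - 1) (d - 1) (d - 1 + j) u v / ((d - 1 + j).choose d : ℝ)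

theorem choose_pos' (d j : ℕ) (hd : 1 ≤ d) (hj : 1 ≤ j) : (0 : ℝ) < ((d - 1 + j).choose d : ℝ) := by
  exact_mod_cast Nat.choose_pos (by omega)

theorem g_eq_Y (d : ℕ) (u v : ℝ) (j : ℕ) (hd : 1 ≤ d) (hj : 1 ≤ j) :
    g (2 * d - 1) (d - 1) (d - 1 + j) u v = (-1) ^ d * Y d u v j * ((d - 1 + j).choose d : ℝ) := by
  have h0 := choose_pos' d j hd hj
  unfold Y
  rw [mul_div_assoc, ← mul_assoc, ← mul_pow]
  norm_num
  field_simp

theorem abs_Y (d : ℕ) (u v : ℝ) (j : ℕ) :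
    |Y d u v j| = |g (2 * d - 1) (d - 1) (d - 1 + j) u v| / ((d - 1 + j).choose d : ℝ) := by
  unfold Y
  rw [abs_div, abs_mul, abs_pow, abs_neg, abs_one, one_pow, one_mul, Nat.abs_cast]

theorem recY (d : ℕ) (u v : ℝ) (h : u + v = 1) (j : ℕ) (hj : 2 ≤ j) (hjd : j + 1 ≤ d) :
    v * ((j : ℝ) - 1) * Y d u v (j - 1)
      = (v * ((j : ℝ) - 1) - u * j) * Y d u v j - u * (((d : ℝ) ^ 2 - (j : ℝ) ^ 2) / j) * Y d u v (j + 1) := by
  have hd : 1 ≤ d := by omega
  have r := rec3 (2 * d - 1) (d - 1) (d - 1 + j) u v h (by omega) (by omega)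
  obtain ⟨i, rfl⟩ : ∃ i, j = i + 1 := ⟨j - 1, by omega⟩
  rw [show i + 1 - 1 = i by omega]
  have e1 := g_eq_Y d u v (i + 1) hd (by omega)
  have e2 := g_eq_Y d u v (i + 1 + 1) hd (by omega)
  have e3 := g_eq_Y d u v i hd (by omega)
  have c1 := choose_up d (i + 1) hd
  have c2 := choose_up d i hd
  have p1 := choose_pos' d (i + 1) hd (by omega)
  rw [show d - 1 + (i + 1) + 1 = d - 1 + (i + 1 + 1) by omega, show d - 1 + (i + 1) - 1 = d - 1 + i by omega,
    e1, e2, e3] at r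
  have s1 : ((2 * d - 1 : ℕ) : ℝ) = 2 * (d : ℝ) - 1 := by
    rw [Nat.cast_sub (by omega)]; push_cast; ring
  have s2 : ((d - 1 + (i + 1) : ℕ) : ℝ) = (d : ℝ) + i := by
    rw [show d - 1 + (i + 1) = d + i by omega]; push_cast; ring
  have s3 : ((d - 1 : ℕ) : ℝ) = (d : ℝ) - 1 := by
    rw [Nat.cast_sub (by omega)]; push_cast; ring
  rw [s1, s2, s3] at r
  have hs : ((-1 : ℝ) ^ d) * ((-1 : ℝ) ^ d) = 1 := by
    rw [← mul_pow]; norm_num
  have hv : v = 1 - u := by linarith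
  push_cast at c1 c2 ⊢
  have hi0 : (0 : ℝ) < (i : ℝ) + 1 := by positivity
  have hi : (0 : ℝ) < (i : ℝ) := by
    have : 1 ≤ i := by omega
    exact_mod_cast this
  set s := (-1 : ℝ) ^ d with hsdef
  set P0 := ((d - 1 + i).choose d : ℝ)
  set P1 := ((d - 1 + (i + 1)).choose d : ℝ)
  set P2 := ((d - 1 + (i + 1 + 1)).choose d : ℝ)
  set Y0 := Y d u v i
  set Y1 := Y d u v (i + 1)
  set Y2 := Y d u v (i + 1 + 1)
  have hP2 : P2 = ((d : ℝ) + (i + 1)) * P1 / (i + 1) := by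
    rw [eq_div_iff hi0.ne']; linarith
  have hP0 : ((d : ℝ) + i) * P0 = i * P1 := by linarith
  -- multiply by `s` and cancel `P1`
  have r2 : u * ((d : ℝ) - (i + 1)) * (Y2 * P2) + v * (Y0 * (((d : ℝ) + i) * P0))
      = (u * ((d : ℝ) - (i + 1)) + v * ((d : ℝ) + i) - d) * (Y1 * P1) := by
    have := congrArg (fun z => s * z) r
    beta_reduce at this
    linear_combination this + (-(u * ((d : ℝ) - (i + 1)) * (Y2 * P2)) - v * (Y0 * (((d : ℝ) + i) * P0))
      + (u * ((d : ℝ) - (i + 1)) + v * ((d : ℝ) + i) - d) * (Y1 * P1)) * hs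
  rw [hP0, hP2] at r2
  have r3 : (u * ((d : ℝ) - (i + 1)) * (Y2 * (((d : ℝ) + (i + 1)) / (i + 1))) + v * (Y0 * i)
      - (u * ((d : ℝ) - (i + 1)) + v * ((d : ℝ) + i) - d) * Y1) * P1 = 0 := by
    linear_combination r2
  have r4 := (mul_eq_zero.mp r3).resolve_right p1.ne'
  have e : u * (((d : ℝ) ^ 2 - ((i : ℝ) + 1) ^ 2) / (i + 1)) * Y2
      = u * ((d : ℝ) - (i + 1)) * (Y2 * (((d : ℝ) + (i + 1)) / (i + 1))) := by
    field_simp
    ring
  rw [e, hv] at *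
  linear_combination r4

theorem recY_end (d : ℕ) (u v : ℝ) (h : u + v = 1) (hd : 2 ≤ d) :
    v * ((d : ℝ) - 1) * Y d u v (d - 1) = (v * ((d : ℝ) - 1) - u * d) * Y d u v d := by
  have r := rec_end (2 * d - 1) (d - 1) u v h (by omega)
  obtain ⟨i, rfl⟩ : ∃ i, d = i + 1 := ⟨d - 1, by omega⟩
  have e1 := g_eq_Y (i + 1) u v (i + 1) (by omega) (by omega)
  have e3 := g_eq_Y (i + 1) u v i (by omega) (by omega)
  have c2 := choose_up (i + 1) i (by omega)
  have p1 := choose_pos' (i + 1) (i + 1) (by omega) (by omega)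
  rw [show 2 * (i + 1) - 1 = i + 1 - 1 + (i + 1) by omega] at r
  rw [show 2 * (i + 1) - 1 = i + 1 - 1 + (i + 1) by omega] at e1 e3
  rw [show i + 1 - 1 + (i + 1) - 1 = i + 1 - 1 + i by omega, e1, e3] at r
  rw [show i + 1 - 1 = i by omega] at *
  have hs : ((-1 : ℝ) ^ (i + 1)) * ((-1 : ℝ) ^ (i + 1)) = 1 := by
    rw [← mul_pow]; norm_num
  have hv : v = 1 - u := by linarith
  push_cast at c2 r ⊢
  set s := (-1 : ℝ) ^ (i + 1) with hsdef
  set P0 := ((i + i).choose (i + 1) : ℝ)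
  set P1 := ((i + (i + 1)).choose (i + 1) : ℝ)
  set Y0 := Y (i + 1) u v i
  set Y1 := Y (i + 1) u v (i + 1)
  have r2 : v * (Y0 * (((i : ℝ) + (i + 1)) * P0)) = (v * ((i : ℝ) + (i + 1)) - (i + 1)) * (Y1 * P1) := by
    have := congrArg (fun z => s * z) r
    beta_reduce at this
    linear_combination this + (- v * (Y0 * (((i : ℝ) + (i + 1)) * P0))
      + (v * ((i : ℝ) + (i + 1)) - (i + 1)) * (Y1 * P1)) * hs
  have hP0 : ((i : ℝ) + (i + 1)) * P0 = i * P1 := by linarith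
  rw [hP0] at r2
  have r3 : (v * (Y0 * i) - (v * ((i : ℝ) + (i + 1)) - (i + 1)) * Y1) * P1 = 0 := by
    linear_combination r2
  have r4 := (mul_eq_zero.mp r3).resolve_right p1.ne'
  rw [hv] at *
  linear_combination r4

theorem Y_top (d : ℕ) (u v : ℝ) (hd : 1 ≤ d) : Y d u v d = v ^ d := by
  have h1 : g (2 * d - 1) (d - 1) (d - 1 + d) u v = (-1) ^ d * v ^ d * ((d - 1 + d).choose d : ℝ) := by
    unfold g A
    rw [show d - 1 + d = 2 * d - 1 by omega, Nat.sub_self, pow_zero, mul_one]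
    have := coeff_lin_pow (2 * d - 1) (d - 1) 1 (-v)
    rw [show (Polynomial.X - Polynomial.C v : Polynomial ℝ) = Polynomial.C 1 * Polynomial.X + Polynomial.C (-v) by
      simp [sub_eq_add_neg]]
    rw [this, show 2 * d - 1 - (d - 1) = d by omega, one_pow, mul_one, neg_pow,
      Nat.choose_symm_of_eq_add (show 2 * d - 1 = d - 1 + d by omega)]
    ring
  have h0 := choose_pos' d d hd hd
  unfold Y
  rw [h1, div_eq_iff h0.ne', ← mul_assoc, ← mul_assoc, ← mul_pow]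
  norm_num

end Pool.Agent.KS6_88.SN
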