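import Pool.Agent.KS6_88.SN.V3

set_option autoImplicit false

/-! The pair inequality for Krawtchouk numbers. -/

namespace Pool.Agent.KS6_88.SN

open Finset

/-- downward induction along the recurrence -/
theorem down (d m0 : ℕ) (y : ℕ → ℝ) (u v V : ℝ) (hu : 0 < u) (hv : 0 < v) (hm0 : 1 ≤ m0)
    (hyd1 : y (d + 1) = 0) (hyd : 0 < y d) (hyV : y d ≤ V)
    (rec : ∀ j, 2 ≤ j → j ≤ d → v * ((j : ℝ) - 1) * y (j - 1)
      = (v * ((j : ℝ) - 1) - u * j) * y j - u * (((d : ℝ) ^ 2 - (j : ℝ) ^ 2) / j) * y (j + 1))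
    (cond : ∀ j, m0 < j → j ≤ d → 2 * u * (2 * (d : ℝ) ^ 2 - (j : ℝ) ^ 2) ≤ v * ((j : ℝ) * ((j : ℝ) - 1)))
    (j : ℕ) (hj : m0 ≤ j) (hjd : j ≤ d) :
    0 < y j ∧ y j ≤ V ∧ 0 ≤ y (j + 1) ∧ y (j + 1) ≤ 2 * y j := by
  revert hj
  induction hjd using Nat.decreasingInduction with
  | self =>
    intro _
    refine ⟨hyd, hyV, ?_, ?_⟩
    · rw [hyd1]
    · rw [hyd1]; linarith
  | of_succ j hjd ih =>
    intro hj
    obtain ⟨h1, h2, h3, h4⟩ := ih (by omega)
    have hjR : (1 : ℝ) ≤ j := by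
      have : 1 ≤ j := by omega
      exact_mod_cast this
    have hjd' : (j : ℝ) + 1 ≤ d := by exact_mod_cast hjd
    have r := rec (j + 1) (by omega) (by omega)
    have c := cond (j + 1) (by omega) (by omega)
    rw [show j + 1 - 1 = j by omega] at r
    push_cast at r c
    rw [show (j : ℝ) + 1 - 1 = j by ring] at r c
    have hj1 : (0 : ℝ) < (j : ℝ) + 1 := by positivity
    set q := ((d : ℝ) ^ 2 - ((j : ℝ) + 1) ^ 2) / ((j : ℝ) + 1) with hq
    have hq0 : 0 ≤ q := by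
      apply div_nonneg _ hj1.le
      nlinarith
    have hqe : q * ((j : ℝ) + 1) = (d : ℝ) ^ 2 - ((j : ℝ) + 1) ^ 2 := by
      rw [hq]; field_simp
    have hvj : 0 < v * (j : ℝ) := by positivity
    -- lower bound
    have hlow : v * (j : ℝ) * y (j + 1) ≤ 2 * (v * (j : ℝ) * y j) := by
      have a1 : u * q * y (j + 1 + 1) ≤ u * q * (2 * y (j + 1)) :=
        mul_le_mul_of_nonneg_left h4 (by positivity)
      have a2 : 2 * (u * ((j : ℝ) + 1) + 2 * (u * q)) ≤ v * (j : ℝ) := by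
        have : 2 * (u * ((j : ℝ) + 1) + 2 * (u * q)) * ((j : ℝ) + 1) ≤ v * (j : ℝ) * ((j : ℝ) + 1) := by
          have e : 2 * (u * ((j : ℝ) + 1) + 2 * (u * q)) * ((j : ℝ) + 1)
              = 2 * u * (2 * (d : ℝ) ^ 2 - ((j : ℝ) + 1) ^ 2) := by
            linear_combination 4 * u * hqe
          rw [e]
          linarith
        exact le_of_mul_le_mul_right this hj1
      have a3 : 2 * (u * ((j : ℝ) + 1) + 2 * (u * q)) * y (j + 1) ≤ v * (j : ℝ) * y (j + 1) :=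
        mul_le_mul_of_nonneg_right a2 h1.le
      nlinarith
    have hup : v * (j : ℝ) * y j ≤ v * (j : ℝ) * y (j + 1) := by
      have b1 : 0 ≤ u * q * y (j + 1 + 1) := by positivity
      have b2 : 0 ≤ u * ((j : ℝ) + 1) * y (j + 1) := by positivity
      nlinarith
    have hup' : y j ≤ y (j + 1) := le_of_mul_le_mul_left hup hvj
    have hlow' : y (j + 1) ≤ 2 * y j := by
      have : v * (j : ℝ) * y (j + 1) ≤ v * (j : ℝ) * (2 * y j) := by linarith
      exact le_of_mul_le_mul_left this hvj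
    refine ⟨by linarith, by linarith, h1.le, hlow'⟩

/-- the extended sequence -/
noncomputable def y' (d : ℕ) (u v : ℝ) (j : ℕ) : ℝ := if j ≤ d then Y d u v j else 0

theorem downY (d m0 : ℕ) (u v : ℝ) (h : u + v = 1) (hu : 0 < u) (hv : 0 < v) (hm0 : 1 ≤ m0) (hd : 1 ≤ d)
    (cond : ∀ j, m0 < j → j ≤ d → 2 * u * (2 * (d : ℝ) ^ 2 - (j : ℝ) ^ 2) ≤ v * ((j : ℝ) * ((j : ℝ) - 1)))
    (j : ℕ) (hj : m0 ≤ j) (hjd : j ≤ d) :
    0 < y' d u v j ∧ y' d u v j ≤ v ^ d ∧ 0 ≤ y' d u v (j + 1) ∧ y' d u v (j + 1) ≤ 2 * y' d u v j := by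
  have htop : y' d u v d = v ^ d := by
    unfold y'
    rw [if_pos le_rfl, Y_top d u v hd]
  refine down d m0 (y' d u v) u v (v ^ d) hu hv hm0 ?_ ?_ ?_ ?_ cond j hj hjd
  · unfold y'
    rw [if_neg (by omega)]
  · rw [htop]; positivity
  · rw [htop]
  · intro j hj2 hjd
    rcases Nat.lt_or_ge j d with hlt | hge
    · have := recY d u v h j hj2 (by omega)
      unfold y'
      rw [if_pos (by omega), if_pos hjd, if_pos (by omega)]
      exact this
    · have hjd' : j = d := by omega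
      subst hjd'
      have := recY_end j u v h hj2
      unfold y'
      rw [if_pos (by omega), if_pos le_rfl, this]
      simp

/-- unitarity -/
theorem unit (d m m' : ℕ) (hm : 1 ≤ m) (hmd : m ≤ d) (hm' : 1 ≤ m') (hmd' : m' ≤ d) (u v : ℝ)
    (h : u + v = 1) (hu : 0 < u) (hv : 0 < v) :
    K d m * (u / v) ^ (m - 1) * (|g (2 * d - 1) (d - 1) (d - 1 + m) u v| / ((d - 1 + m).choose d : ℝ)) ^ 2 / v
      + K d m' * (v / u) ^ (m' - 1) *
        (|g (2 * d - 1) (d - 1) (d - m') u v| / ((d - 1 + m').choose d : ℝ)) ^ 2 / u ≤ 1 := by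
  have hd : 1 ≤ d := by omega
  have o := orth_two (2 * d - 1) (d - 1) (d - 1 + m) (d - m') u v h hu.le hv.le (by omega) (by omega) (by omega)
  rw [show 2 * d - 1 - (d - 1 + m) = d - m by omega, show 2 * d - 1 - (d - m') = d - 1 + m' by omega,
    show 2 * d - 1 - (d - 1) = d by omega] at o
  rw [Nat.choose_symm_of_eq_add (show 2 * d - 1 = (d - m') + (d - 1 + m') by omega),
    Nat.choose_symm_of_eq_add (show 2 * d - 1 = (d - 1) + d by omega)] at o
  have k1 := K_choose d m hd hm hmd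
  have k2 := K_choose d m' hd hm' hmd'
  have c1 := choose_pos' d m hd hm
  have c2 := choose_pos' d m' hd hm'
  have cn : (0 : ℝ) < ((2 * d - 1).choose d : ℝ) := by
    exact_mod_cast Nat.choose_pos (by omega)
  have e1 : (2 * d - 1).choose (d - 1 + m) = (2 * d - 1).choose (d - 1 + m) := rfl
  set G1 := g (2 * d - 1) (d - 1) (d - 1 + m) u v
  set G2 := g (2 * d - 1) (d - 1) (d - m') u v
  set P1 := ((d - 1 + m).choose d : ℝ)
  set P2 := ((d - 1 + m').choose d : ℝ)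
  set N1 := ((2 * d - 1).choose (d - 1 + m) : ℝ)
  set N2 := ((2 * d - 1).choose (d - 1 + m') : ℝ)
  set N := ((2 * d - 1).choose d : ℝ)
  have pw1 : u ^ (d - 1 + m) * v ^ (d - m) = (u * v) ^ d * ((u / v) ^ (m - 1) / v) := by
    obtain ⟨i, rfl⟩ : ∃ i, m = i + 1 := ⟨m - 1, by omega⟩
    obtain ⟨r, rfl⟩ : ∃ r, d = i + 1 + r := ⟨d - (i + 1), by omega⟩
    rw [show i + 1 + r - 1 + (i + 1) = i + r + i + 1 by omega, show i + 1 + r - (i + 1) = r by omega,
      show i + 1 - 1 = i by omega, div_pow]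
    field_simp
    ring
  have pw2 : u ^ (d - m') * v ^ (d - 1 + m') = (u * v) ^ d * ((v / u) ^ (m' - 1) / u) := by
    obtain ⟨i, rfl⟩ : ∃ i, m' = i + 1 := ⟨m' - 1, by omega⟩
    obtain ⟨r, rfl⟩ : ∃ r, d = i + 1 + r := ⟨d - (i + 1), by omega⟩
    rw [show i + 1 + r - 1 + (i + 1) = i + r + i + 1 by omega, show i + 1 + r - (i + 1) = r by omega,
      show i + 1 - 1 = i by omega, div_pow]
    field_simp
    ring
  have q1 : N1 = K d m * N / P1 ^ 2 := by
    rw [eq_div_iff (by positivity)]; linarith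
  have q2 : N2 = K d m' * N / P2 ^ 2 := by
    rw [eq_div_iff (by positivity)]; linarith
  have huv : (0 : ℝ) < N * (u * v) ^ d := by positivity
  have o2 : N * (u * v) ^ d * (K d m * (u / v) ^ (m - 1) * (|G1| / P1) ^ 2 / v
      + K d m' * (v / u) ^ (m' - 1) * (|G2| / P2) ^ 2 / u) ≤ N * (u * v) ^ d * 1 := by
    have t1 : N1 * u ^ (d - 1 + m) * v ^ (d - m) * G1 ^ 2
        = N * (u * v) ^ d * (K d m * (u / v) ^ (m - 1) * (|G1| / P1) ^ 2 / v) := by
      rw [mul_assoc N1, pw1, q1, div_pow |G1|, sq_abs]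
      field_simp
    have t2 : N2 * u ^ (d - m') * v ^ (d - 1 + m') * G2 ^ 2
        = N * (u * v) ^ d * (K d m' * (v / u) ^ (m' - 1) * (|G2| / P2) ^ 2 / u) := by
      rw [mul_assoc N2, pw2, q2, div_pow |G2|, sq_abs]
      field_simp
    rw [mul_add, ← t1, ← t2]
    linarith
  exact le_of_mul_le_mul_left o2 huv

theorem three_pow_le_K (d m : ℕ) (hm : 1 ≤ m) (hmd : m ≤ d) : (3 : ℝ) ^ (m - 1) ≤ K d m := by
  refine le_trans ?_ (K_lower d m hm hmd)
  apply pow_le_pow_left₀ (by norm_num)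
  have hm0 : (0 : ℝ) < m := by exact_mod_cast hm
  have hd0 : (m : ℝ) ≤ d := by exact_mod_cast hmd
  rw [le_div_iff₀ (by positivity)]
  nlinarith

theorem one_le_K (d m : ℕ) (hm : 1 ≤ m) (hmd : m ≤ d) : (1 : ℝ) ≤ K d m :=
  le_trans (one_le_pow₀ (by norm_num)) (three_pow_le_K d m hm hmd)

/-- `v^d ≤ 1 - √u` when `u (d-1)² ≥ 1` -/
theorem pow_le_sqrt (d : ℕ) (u v : ℝ) (h : u + v = 1) (hu : 0 < u) (hv : 0 < v) (hd : 1 ≤ d)
    (hc : 1 ≤ u * ((d : ℝ) - 1) ^ 2) : Real.sqrt u ≤ 1 - v ^ d := by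
  set t := Real.sqrt u with ht
  have ht0 : 0 < t := Real.sqrt_pos.mpr hu
  have htt : t ^ 2 = u := Real.sq_sqrt hu.le
  obtain ⟨e, rfl⟩ : ∃ e, d = e + 1 := ⟨d - 1, by omega⟩
  push_cast at hc
  rw [show (e : ℝ) + 1 - 1 = e by ring] at hc
  have he : (0 : ℝ) ≤ e := by positivity
  have hte : 1 ≤ t * e := by
    have : (1 : ℝ) ^ 2 ≤ (t * e) ^ 2 := by
      rw [mul_pow, htt]; linarith
    exact (sq_le_sq₀ (by norm_num) (by positivity)).mp this
  have ht1 : t < 1 := by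
    have : t ^ 2 < 1 ^ 2 := by rw [htt]; linarith
    exact (sq_lt_sq₀ ht0.le (by norm_num)).mp this
  have hb : 1 + (e : ℝ) * t ^ 2 ≤ (1 + t ^ 2) ^ e := one_add_mul_le_pow (by nlinarith) e
  have hv' : v = 1 - t ^ 2 := by rw [htt]; linarith
  have hprod : v ^ e * (1 + t ^ 2) ^ e ≤ 1 := by
    rw [← mul_pow]
    apply pow_le_one₀ (by positivity)
    rw [hv']
    nlinarith [sq_nonneg (t ^ 2)]
  have hve : 0 < v ^ e := by positivity
  have h1 : v ^ e * (1 + e * t ^ 2) ≤ 1 := le_trans (mul_le_mul_of_nonneg_left hb hve.le) hprod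
  have h2 : v ^ e * (1 + t) ≤ 1 := by
    refine le_trans (mul_le_mul_of_nonneg_left ?_ hve.le) h1
    nlinarith
  have h3 : v ^ (e + 1) = (1 - t) * (v ^ e * (1 + t)) := by
    rw [pow_succ, hv']; ring
  rw [h3]
  nlinarith

theorem pow_le_lin (d : ℕ) (u v : ℝ) (h : u + v = 1) (hu : 0 < u) (hv : 0 < v) (hd : 1 ≤ d) :
    (d : ℝ) * u * v ^ (d - 1) ≤ 1 - v ^ d := by
  obtain ⟨e, rfl⟩ : ∃ e, d = e + 1 := ⟨d - 1, by omega⟩
  rw [show e + 1 - 1 = e by omega]
  induction e with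
  | zero => norm_num; linarith
  | succ e ih =>
    have ih := ih (by omega)
    have hv1 : v ≤ 1 := by linarith
    push_cast at ih ⊢
    have hu' : u = 1 - v := by linarith
    rw [hu'] at ih ⊢
    have h2 := mul_le_mul_of_nonneg_left ih hv.le
    have h3 : (1 - v) * v ^ (e + 1) ≤ (1 - v) * 1 :=
      mul_le_mul_of_nonneg_left (pow_le_one₀ hv.le hv1) (by linarith)
    linear_combination h2 + h3

end Pool.Agent.KS6_88.SN
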