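import Pool.Agent.KS6_88.SN.V4

set_option autoImplicit false

/-! The pair inequality for Krawtchouk numbers and the weight `w`. -/

namespace Pool.Agent.KS6_88.SN

open Finset

theorem rec_y' (d : ℕ) (u v : ℝ) (h : u + v = 1) (j : ℕ) (hj2 : 2 ≤ j) (hjd : j ≤ d) :
    v * ((j : ℝ) - 1) * y' d u v (j - 1)
      = (v * ((j : ℝ) - 1) - u * j) * y' d u v j
        - u * (((d : ℝ) ^ 2 - (j : ℝ) ^ 2) / j) * y' d u v (j + 1) := by
  rcases Nat.lt_or_ge j d with hlt | hge
  · have := recY d u v h j hj2 (by omega)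
    unfold y'
    rw [if_pos (by omega), if_pos hjd, if_pos (by omega)]
    exact this
  · have hjd' : j = d := by omega
    subst hjd'
    have := recY_end j u v h hj2
    unfold y'
    rw [if_pos (by omega), if_pos le_rfl, this]
    simp

/-- the middle Krawtchouk number when `u (d-1)² < 1` -/
theorem mid_small (d : ℕ) (u v : ℝ) (h : u + v = 1) (hu : 0 < u) (huv : u ≤ v) (hd : 2 ≤ d)
    (hc : u * ((d : ℝ) - 1) ^ 2 < 1) :
    |g (2 * d - 1) (d - 1) (d - 1) u v| ≤ (d : ℝ) * u * v ^ (d - 1) := by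
  have hv : 0 < v := by linarith
  have hdR : (2 : ℝ) ≤ d := by exact_mod_cast hd
  have hv' : v = 1 - u := by linarith
  have cond : ∀ j : ℕ, 2 < j → j ≤ d →
      2 * u * (2 * (d : ℝ) ^ 2 - (j : ℝ) ^ 2) ≤ v * ((j : ℝ) * ((j : ℝ) - 1)) := by
    intro j hj hjd
    have hj3 : (3 : ℝ) ≤ j := by exact_mod_cast hj
    have a1 : 2 * u * (2 * (d : ℝ) ^ 2 - (j : ℝ) ^ 2) ≤ 2 * u * (2 * (d : ℝ) ^ 2 - 9) := by
      apply mul_le_mul_of_nonneg_left _ (by positivity)
      nlinarith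
    have a2 : 6 * v ≤ v * ((j : ℝ) * ((j : ℝ) - 1)) := by
      have : (6 : ℝ) ≤ (j : ℝ) * ((j : ℝ) - 1) := by nlinarith
      nlinarith
    have a3 : u * (2 * (d : ℝ) ^ 2 - 9) ≤ 3 * v := by
      rw [hv']
      nlinarith [mul_nonneg hu.le (sq_nonneg ((d : ℝ) - 3))]
    linarith
  obtain ⟨b1, b2, b3, b4⟩ := downY d 2 u v h hu hv (by norm_num) (by omega) cond 2 le_rfl hd
  have r := rec_y' d u v h 2 le_rfl hd
  rw [show (2 : ℕ) - 1 = 1 by norm_num] at r
  rw [show (2 : ℕ) + 1 = 3 by norm_num] at r b3 b4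
  push_cast at r
  set y1 := y' d u v 1
  set y2 := y' d u v 2
  set y3 := y' d u v 3
  have q0 : 0 ≤ ((d : ℝ) ^ 2 - 2 ^ 2) / 2 := by
    apply div_nonneg _ (by norm_num)
    nlinarith
  have hup : y1 ≤ y2 := by
    have t1 : 0 ≤ u * (((d : ℝ) ^ 2 - 2 ^ 2) / 2) * y3 := by positivity
    have t2 : 0 ≤ u * y2 := by positivity
    have : v * y1 ≤ v * y2 := by nlinarith
    exact le_of_mul_le_mul_left this hv
  have hlow : 0 ≤ y1 + ((d : ℝ) ^ 2 - 1) * y2 := by
    have t1 : u * (((d : ℝ) ^ 2 - 2 ^ 2) / 2) * y3 ≤ u * (((d : ℝ) ^ 2 - 2 ^ 2) / 2) * (2 * y2) :=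
      mul_le_mul_of_nonneg_left b4 (by positivity)
    have : 0 ≤ v * (y1 + ((d : ℝ) ^ 2 - 1) * y2) := by
      have e : v * (y1 + ((d : ℝ) ^ 2 - 1) * y2) ≥
          (v - 2 * u) * y2 - u * (((d : ℝ) ^ 2 - 2 ^ 2) / 2) * (2 * y2) + v * (((d : ℝ) ^ 2 - 1) * y2) := by
        nlinarith
      have e2 : (v - 2 * u) * y2 - u * (((d : ℝ) ^ 2 - 2 ^ 2) / 2) * (2 * y2) + v * (((d : ℝ) ^ 2 - 1) * y2)
          = ((v - u) * (d : ℝ) ^ 2 + 2 * u) * y2 := by ring
      rw [e2] at e
      have e3 : 0 ≤ ((v - u) * (d : ℝ) ^ 2 + 2 * u) * y2 := by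
        have : 0 ≤ v - u := by linarith
        positivity
      linarith
    exact nonneg_of_mul_nonneg_right this hv
  have hmid : |y1 + ((d : ℝ) ^ 2 - 1) * y2| ≤ (d : ℝ) ^ 2 * v ^ d := by
    rw [abs_of_nonneg hlow]
    nlinarith [mul_nonneg (sq_nonneg (d : ℝ)) (by linarith : 0 ≤ v ^ d - y2)]
  -- recurrence at `a = d`
  have r3 := rec3 (2 * d - 1) (d - 1) d u v h (by omega) (by omega)
  have s1 : ((2 * d - 1 : ℕ) : ℝ) = 2 * (d : ℝ) - 1 := by
    rw [Nat.cast_sub (by omega)]; push_cast; ring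
  have s3 : ((d - 1 : ℕ) : ℝ) = (d : ℝ) - 1 := by
    rw [Nat.cast_sub (by omega)]; push_cast; ring
  rw [s1, s3] at r3
  have g1 := g_eq_Y d u v 1 (by omega) le_rfl
  have g2 := g_eq_Y d u v 2 (by omega) (by norm_num)
  rw [show d - 1 + 1 = d by omega] at g1
  rw [show d - 1 + 2 = d + 1 by omega] at g2
  have y1e : y1 = Y d u v 1 := by
    show y' d u v 1 = _
    unfold y'
    rw [if_pos (by omega)]
  have y2e : y2 = Y d u v 2 := by
    show y' d u v 2 = _
    unfold y'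
    rw [if_pos (by omega)]
  rw [← y1e, Nat.choose_self] at g1
  rw [← y2e, Nat.choose_succ_self_right] at g2
  push_cast at g1 g2
  rw [g1, g2] at r3
  have r4 : v * d * g (2 * d - 1) (d - 1) (d - 1) u v
      = -(u * (-1) ^ d * (y1 + ((d : ℝ) ^ 2 - 1) * y2)) := by
    rw [hv'] at r3 ⊢
    linear_combination r3
  have r5 : v * d * |g (2 * d - 1) (d - 1) (d - 1) u v| = u * |y1 + ((d : ℝ) ^ 2 - 1) * y2| := by
    have := congrArg abs r4
    rw [abs_mul, abs_mul, abs_neg, abs_mul, abs_mul, abs_pow, abs_neg, abs_one, one_pow, abs_of_pos hv,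
      abs_of_pos hu, abs_of_pos (by linarith : (0 : ℝ) < d)] at this
    rw [this]; ring
  have hd0 : (0 : ℝ) < d := by linarith
  have r6 : v * d * |g (2 * d - 1) (d - 1) (d - 1) u v| ≤ v * d * ((d : ℝ) * u * v ^ (d - 1)) := by
    rw [r5]
    refine le_trans (mul_le_mul_of_nonneg_left hmid hu.le) (le_of_eq ?_)
    obtain ⟨e, rfl⟩ : ∃ e, d = e + 1 := ⟨d - 1, by omega⟩
    rw [show e + 1 - 1 = e by omega]
    ring
  exact le_of_mul_le_mul_left r6 (by positivity)

theorem pair (d m m' : ℕ) (hm : 1 ≤ m) (hmd : m ≤ d) (hm' : 1 ≤ m') (hmd' : m' ≤ d)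
    (u v : ℝ) (h : u + v = 1) (hu : 0 < u) (huv : u ≤ v) :
    |g (2 * d - 1) (d - 1) (d - 1 + m) u v| / ((d - 1 + m).choose d : ℝ) +
      |g (2 * d - 1) (d - 1) (d - m') u v| / ((d - 1 + m').choose d : ℝ) ≤ 1 := by
  have hv : 0 < v := by linarith
  have hd : 1 ≤ d := by omega
  have hv1 : v ≤ 1 := by linarith
  have U := unit d m m' hm hmd hm' hmd' u v h hu hv
  have R1n : 0 ≤ |g (2 * d - 1) (d - 1) (d - 1 + m) u v| / ((d - 1 + m).choose d : ℝ) := by positivity
  have R2n : 0 ≤ |g (2 * d - 1) (d - 1) (d - m') u v| / ((d - 1 + m').choose d : ℝ) := by positivity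
  have habs := abs_Y d u v m
  have hR2 : |g (2 * d - 1) (d - 1) (d - m') u v| / ((d - 1 + m').choose d : ℝ)
    = |g (2 * d - 1) (d - 1) (d - m') u v| / ((d - 1 + m').choose d : ℝ) := rfl
  set R1 := |g (2 * d - 1) (d - 1) (d - 1 + m) u v| / ((d - 1 + m).choose d : ℝ) with hR1
  set R2 := |g (2 * d - 1) (d - 1) (d - m') u v| / ((d - 1 + m').choose d : ℝ) with hR2'
  have hvu : 1 ≤ v / u := by rw [le_div_iff₀ hu]; linarith
  have hK' := one_le_K d m' hm' hmd'
  have hZ : 1 ≤ K d m' * (v / u) ^ (m' - 1) := one_le_mul_of_one_le_of_one_le hK' (one_le_pow₀ hvu)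
  have hinv : (u / v) ^ (m - 1) * (v / u) ^ (m - 1) = 1 := by
    rw [← mul_pow]
    have : u / v * (v / u) = 1 := by field_simp
    rw [this, one_pow]
  have hX0 : 0 < (u / v) ^ (m - 1) := by positivity
  have hK := one_le_K d m hm hmd
  have hK0 : 0 < K d m := by linarith
  rcases le_or_gt ((v / u) ^ (m - 1)) (K d m) with hA | hB
  · -- Case A
    have hX : 1 ≤ K d m * (u / v) ^ (m - 1) := by
      have := mul_le_mul_of_nonneg_left hA hX0.le
      rw [hinv] at this
      linarith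
    have i1 : R1 ^ 2 / v ≤ K d m * (u / v) ^ (m - 1) * R1 ^ 2 / v := by
      apply div_le_div_of_nonneg_right _ hv.le
      nlinarith [sq_nonneg R1]
    have i2 : R2 ^ 2 / u ≤ K d m' * (v / u) ^ (m' - 1) * R2 ^ 2 / u := by
      apply div_le_div_of_nonneg_right _ hu.le
      nlinarith [sq_nonneg R2]
    have i3 : R1 ^ 2 / v + R2 ^ 2 / u ≤ 1 := by linarith
    rw [div_add_div _ _ hv.ne' hu.ne', div_le_one (by positivity)] at i3
    have i4 : (R1 + R2) ^ 2 * (u * v) ≤ 1 * (u * v) := by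
      have e : (R1 + R2) ^ 2 * (u * v) = (R1 ^ 2 * u + v * R2 ^ 2) * (u + v) - (u * R1 - v * R2) ^ 2 := by
        ring
      rw [e, h]
      linarith [sq_nonneg (u * R1 - v * R2)]
    have i5 : (R1 + R2) ^ 2 ≤ 1 := le_of_mul_le_mul_right i4 (by positivity)
    exact (sq_le_one_iff₀ (by positivity)).mp i5
  · -- Case B
    have hm2 : 2 ≤ m := by
      by_contra hcon
      have : m = 1 := by omega
      subst this
      rw [K_one] at hB
      norm_num at hB
    have hm0 : (0 : ℝ) < m := by exact_mod_cast hm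
    have hmR : (m : ℝ) ≤ d := by exact_mod_cast hmd
    have hlt : (4 * (d : ℝ) ^ 2 - (m : ℝ) ^ 2) / (m : ℝ) ^ 2 < v / u :=
      lt_of_pow_lt_pow_left₀ (m - 1) (by positivity) (lt_of_le_of_lt (K_lower d m hm hmd) hB)
    have hlt2 : u * (4 * (d : ℝ) ^ 2 - (m : ℝ) ^ 2) < v * (m : ℝ) ^ 2 := by
      rw [div_lt_div_iff₀ (by positivity) hu] at hlt
      linarith
    have cond : ∀ j : ℕ, m < j → j ≤ d →
        2 * u * (2 * (d : ℝ) ^ 2 - (j : ℝ) ^ 2) ≤ v * ((j : ℝ) * ((j : ℝ) - 1)) := by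
      intro j hj hjd
      have hj1 : (m : ℝ) + 1 ≤ j := by exact_mod_cast hj
      have a1 : 2 * u * (2 * (d : ℝ) ^ 2 - (j : ℝ) ^ 2) ≤ u * (4 * (d : ℝ) ^ 2 - (m : ℝ) ^ 2) := by
        have : 2 * (2 * (d : ℝ) ^ 2 - (j : ℝ) ^ 2) ≤ 4 * (d : ℝ) ^ 2 - (m : ℝ) ^ 2 := by nlinarith
        nlinarith
      have a2 : v * (m : ℝ) ^ 2 ≤ v * ((j : ℝ) * ((j : ℝ) - 1)) := by
        apply mul_le_mul_of_nonneg_left _ hv.le
        nlinarith
      linarith
    obtain ⟨b1, b2, -, -⟩ := downY d m u v h hu hv hm hd cond m le_rfl hmd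
    have b0 : y' d u v m = Y d u v m := by
      unfold y'
      rw [if_pos hmd]
    rw [b0] at b1 b2
    have hR1le : R1 ≤ v ^ d := by
      rw [← habs, abs_of_pos b1]
      exact b2
    have hU2 : K d m' * (v / u) ^ (m' - 1) * R2 ^ 2 / u ≤ 1 := by
      have : 0 ≤ K d m * (u / v) ^ (m - 1) * R1 ^ 2 / v := by positivity
      linarith
    have hvd : v ^ d ≤ v := by
      have := pow_le_pow_of_le_one hv.le hv1 hd
      simpa using this
    have hR2le : R2 ≤ 1 - v ^ d := by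
      rcases Nat.lt_or_ge m' 2 with hlt' | hge'
      · have hm1 : m' = 1 := by omega
        rw [hm1, K_one] at hU2
        simp only [Nat.sub_self, pow_zero, one_mul, mul_one] at hU2
        rw [div_le_one hu] at hU2
        rcases le_or_gt 1 (u * ((d : ℝ) - 1) ^ 2) with hc | hc
        · refine le_trans ?_ (pow_le_sqrt d u v h hu hv hd hc)
          rw [← Real.sqrt_sq R2n]
          exact Real.sqrt_le_sqrt hU2
        · have hms := mid_small d u v h hu huv (by omega) hc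
          have : R2 = |g (2 * d - 1) (d - 1) (d - 1) u v| := by
            rw [hR2', hm1, show d - 1 + 1 = d by omega, Nat.choose_self]
            norm_num
          rw [this]
          exact le_trans hms (pow_le_lin d u v h hu hv hd)
      · have hK3 : 2 ≤ K d m' := by
          have h3 := three_pow_le_K d m' hm' hmd'
          have : (3 : ℝ) ^ 1 ≤ 3 ^ (m' - 1) := pow_le_pow_right₀ (by norm_num) (by omega)
          linarith
        have hpow : v / u ≤ (v / u) ^ (m' - 1) := by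
          have := pow_le_pow_right₀ hvu (show 1 ≤ m' - 1 by omega)
          simpa using this
        have hZ2 : 2 * (v / u) ≤ K d m' * (v / u) ^ (m' - 1) :=
          mul_le_mul hK3 hpow (by positivity) (by linarith)
        have h5 : 2 * (v / u) * R2 ^ 2 / u ≤ 1 := by
          refine le_trans ?_ hU2
          apply div_le_div_of_nonneg_right _ hu.le
          exact mul_le_mul_of_nonneg_right hZ2 (sq_nonneg _)
        have h6 : 2 * v * R2 ^ 2 ≤ u ^ 2 := by
          have e : 2 * (v / u) * R2 ^ 2 / u = 2 * v * R2 ^ 2 / u ^ 2 := by field_simp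
          rw [e, div_le_one (by positivity)] at h5
          exact h5
        have h7 : R2 ^ 2 ≤ u ^ 2 := by nlinarith [sq_nonneg R2]
        have h8 : R2 ≤ u := (sq_le_sq₀ R2n hu.le).mp h7
        linarith
    linarith

end Pool.Agent.KS6_88.SN
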