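import Pool.Agent.KS6_88.SN.V5

set_option autoImplicit false

/-! Existence of the weight `w` for the vertex polynomials. -/

namespace Pool.Agent.KS6_88.SN

open Finset Polynomial

theorem g_one_zero (n k a : ℕ) (hk : k ≤ n) (ha : a ≤ n) :
    g n k a 1 0 = ((n - a).choose (n - k) : ℝ) := by
  unfold g A
  have h1 : (X - C (0 : ℝ)) ^ a * (X + C (1 : ℝ)) ^ (n - a)
      = (C 1 * X + C 1) ^ (n - a) * X ^ a := by
    simp only [map_zero, sub_zero, map_one, one_mul]
    ring
  rw [h1, coeff_mul_X_pow']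
  split_ifs with hak
  · rw [coeff_lin_pow]
    simp only [one_pow, mul_one]
    rw [Nat.choose_symm_of_eq_add (show n - a = (k - a) + (n - k) by omega)]
  · rw [Nat.choose_eq_zero_of_lt (by omega)]
    simp

theorem g_zero_one (n k a : ℕ) (hk : k ≤ n) (ha : a ≤ n) :
    g n k a 0 1 = (-1) ^ (n - k) * (a.choose (n - k) : ℝ) := by
  unfold g A
  have h1 : (X - C (1 : ℝ)) ^ a * (X + C (0 : ℝ)) ^ (n - a)
      = (C 1 * X + C (-1)) ^ a * X ^ (n - a) := by
    simp only [map_zero, add_zero, map_one, one_mul, map_neg]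
    ring
  rw [h1, coeff_mul_X_pow']
  split_ifs with hak
  · rw [coeff_lin_pow]
    simp only [one_pow, mul_one]
    rw [Nat.choose_symm_of_eq_add (show a = (k - (n - a)) + (n - k) by omega),
      show a - (k - (n - a)) = n - k by omega]
    ring
  · rw [Nat.choose_eq_zero_of_lt (by omega)]
    simp

/-- the pair inequality for all `u, v ≥ 0` -/
theorem pair_all (d a a' : ℕ) (ha : d ≤ a) (han : a ≤ 2 * d - 1) (ha' : a' < d)
    (u v : ℝ) (h : u + v = 1) (hu : 0 ≤ u) (hv : 0 ≤ v) :
    |g (2 * d - 1) (d - 1) a u v| / (a.choose d : ℝ) +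
      |g (2 * d - 1) (d - 1) a' u v| / ((2 * d - 1 - a').choose d : ℝ) ≤ 1 := by
  rcases hu.eq_or_lt with hu0 | hu0
  · obtain rfl : u = 0 := hu0.symm
    obtain rfl : v = 1 := by linarith
    rw [g_zero_one _ _ _ (by omega) (by omega), g_zero_one _ _ _ (by omega) (by omega),
      show 2 * d - 1 - (d - 1) = d by omega, Nat.choose_eq_zero_of_lt ha']
    rw [abs_mul, abs_pow, abs_neg, abs_one, one_pow, one_mul, Nat.abs_cast]
    simp only [Nat.cast_zero, mul_zero, abs_zero, zero_div, add_zero]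
    exact div_self_le_one _
  rcases hv.eq_or_lt with hv0 | hv0
  · obtain rfl : v = 0 := hv0.symm
    obtain rfl : u = 1 := by linarith
    rw [g_one_zero _ _ _ (by omega) (by omega), g_one_zero _ _ _ (by omega) (by omega),
      show 2 * d - 1 - (d - 1) = d by omega, Nat.choose_eq_zero_of_lt (show 2 * d - 1 - a < d by omega)]
    simp only [Nat.abs_cast, Nat.cast_zero, abs_zero, zero_div, zero_add]
    exact div_self_le_one _
  rcases le_or_gt u v with huv | huv
  · have := pair d (a - (d - 1)) (d - a') (by omega) (by omega) (by omega) (by omega) u v h hu0 huv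
    rw [show d - 1 + (a - (d - 1)) = a by omega, show d - (d - a') = a' by omega,
      show d - 1 + (d - a') = 2 * d - 1 - a' by omega] at this
    exact this
  · have := pair d (d - a') (a - (d - 1)) (by omega) (by omega) (by omega) (by omega) v u (by linarith)
      hv0 huv.le
    rw [abs_g_symm _ _ a u v han, abs_g_symm _ _ a' u v (by omega)]
    rw [show d - 1 + (d - a') = 2 * d - 1 - a' by omega, show d - (a - (d - 1)) = 2 * d - 1 - a by omega,
      show d - 1 + (a - (d - 1)) = a by omega] at this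
    linarith

theorem exists_w (d : ℕ) (hd : 1 ≤ d) (u v : ℝ) (h : u + v = 1) (hu : 0 ≤ u) (hv : 0 ≤ v) :
    ∃ w : ℝ, 0 ≤ w ∧ w ≤ 1 ∧ ∀ a ≤ 2 * d - 1,
      |g (2 * d - 1) (d - 1) a u v| ≤ w * ((2 * d - 1 - a).choose d : ℝ) + (1 - w) * (a.choose d : ℝ) := by
  have hne : (range d).Nonempty := ⟨0, by simp; omega⟩
  obtain ⟨b, hb, hmax⟩ := (range d).exists_max_image
    (fun a' => |g (2 * d - 1) (d - 1) a' u v| / ((2 * d - 1 - a').choose d : ℝ)) hne
  rw [mem_range] at hb
  set w := |g (2 * d - 1) (d - 1) b u v| / ((2 * d - 1 - b).choose d : ℝ) with hw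
  have hw0 : 0 ≤ w := by positivity
  have hw1 : w ≤ 1 := by
    have := pair_all d d b le_rfl (by omega) hb u v h hu hv
    have h0 : 0 ≤ |g (2 * d - 1) (d - 1) d u v| / (d.choose d : ℝ) := by positivity
    linarith
  refine ⟨w, hw0, hw1, fun a ha => ?_⟩
  rcases Nat.lt_or_ge a d with hlt | hge
  · have h1 := hmax a (by simpa using hlt)
    have hc : (0 : ℝ) < ((2 * d - 1 - a).choose d : ℝ) := by
      exact_mod_cast Nat.choose_pos (by omega)
    rw [Nat.choose_eq_zero_of_lt hlt]
    simp only [Nat.cast_zero, mul_zero, add_zero]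
    rw [div_le_iff₀ hc] at h1
    exact h1
  · have h1 := pair_all d a b hge ha hb u v h hu hv
    have hc : (0 : ℝ) < (a.choose d : ℝ) := by
      exact_mod_cast Nat.choose_pos hge
    rw [Nat.choose_eq_zero_of_lt (show 2 * d - 1 - a < d by omega)]
    simp only [Nat.cast_zero, mul_zero, zero_add]
    have h2 : |g (2 * d - 1) (d - 1) a u v| / (a.choose d : ℝ) ≤ 1 - w := by linarith
    rw [div_le_iff₀ hc] at h2
    exact h2

/-- the derivatives of the vertex polynomials -/
theorem eval_vertex (n k a : ℕ) (hk : k ≤ n) (ha : a ≤ n) (u v : ℝ) (h : u + v = 1) :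
    eval (u - v) (derivative^[k] ((X - C 1) ^ a * (X + C 1) ^ (n - a) : ℝ[X]))
      = (k.factorial : ℝ) * 2 ^ (n - k) * g n k a u v := by
  have h1 : eval (u - v) (derivative^[k] ((X - C 1) ^ a * (X + C 1) ^ (n - a) : ℝ[X]))
      = (k.factorial : ℝ) * (taylor (u - v) ((X - C 1) ^ a * (X + C 1) ^ (n - a) : ℝ[X])).coeff k := by
    rw [taylor_coeff, ← factorial_smul_hasseDeriv]
    simp
  have h2 : taylor (u - v) ((X - C 1) ^ a * (X + C 1) ^ (n - a) : ℝ[X])
      = (X - C (2 * v)) ^ a * (X + C (2 * u)) ^ (n - a) := by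
    rw [taylor_apply]
    simp only [mul_comp, pow_comp, sub_comp, add_comp, X_comp, C_comp]
    have e1 : (X + C (u - v) - C 1 : ℝ[X]) = X - C (2 * v) := by
      rw [← h]; simp only [map_sub, map_add, map_mul, map_ofNat]; ring
    have e2 : (X + C (u - v) + C 1 : ℝ[X]) = X + C (2 * u) := by
      rw [← h]; simp only [map_sub, map_add, map_mul, map_ofNat]; ring
    rw [e1, e2]
  have h3 : ((X - C (2 * v)) ^ a * (X + C (2 * u)) ^ (n - a) : ℝ[X]).comp (C 2 * X)
      = C (2 ^ n) * A n a u v := by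
    unfold A
    simp only [mul_comp, pow_comp, sub_comp, add_comp, X_comp, C_comp]
    rw [show (C 2 * X - C (2 * v) : ℝ[X]) = C 2 * (X - C v) by simp only [map_mul]; ring,
      show (C 2 * X + C (2 * u) : ℝ[X]) = C 2 * (X + C u) by simp only [map_mul]; ring,
      mul_pow, mul_pow]
    have : (2 : ℝ) ^ n = 2 ^ a * 2 ^ (n - a) := by rw [← pow_add]; congr 1; omega
    rw [this, map_mul, map_pow, map_pow]
    ring
  have h4 := congrArg (fun P : ℝ[X] => P.coeff k) h3
  beta_reduce at h4
  rw [comp_C_mul_X_coeff, coeff_C_mul] at h4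
  have h5 : (2 : ℝ) ^ n = 2 ^ (n - k) * 2 ^ k := by rw [← pow_add]; congr 1; omega
  have h6 : ((X - C (2 * v)) ^ a * (X + C (2 * u)) ^ (n - a) : ℝ[X]).coeff k
      = 2 ^ (n - k) * g n k a u v := by
    have hp : (0 : ℝ) < 2 ^ k := by positivity
    apply mul_right_cancel₀ hp.ne'
    rw [h4, h5, g]
    ring
  rw [h1, h2, h6]
  ring

end Pool.Agent.KS6_88.SN
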